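import Pool.Agent.Lib.MP_716709_gt.Near.Final

set_option autoImplicit false

namespace Pool.Agent.Lib.MP_716709_gt.Near

open Finset Pool.Agent.Lib.MP_716709_gt

open scoped symmDiff

/-- Conic Caratheodory theorem for a finite family. -/
theorem conic {α ι : Type*} [Fintype α] [DecidableEq α] [Fintype ι] (v : α → ι → ℝ) :
    ∀ (m : ℕ) (w : α → ℝ), (∀ i, 0 ≤ w i) → (supp w).card = m →
    ∃ w' : α → ℝ, (∀ i, 0 ≤ w' i) ∧ (supp w').card ≤ Fintype.card ι ∧
      ∀ e, ∑ i, w' i * v i e = ∑ i, w i * v i e := by
  classical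
  intro m
  induction m using Nat.strong_induction_on with
  | _ m ih =>
    intro w hw hwm
    rcases Nat.lt_or_ge (Fintype.card ι) m with hlt | hge
    · -- a linear relation
      have hdep : ¬ LinearIndependent ℝ (fun i : supp w => v i) := by
        intro hli
        have h1 := hli.fintype_card_le_finrank
        rw [Module.finrank_fintype_fun_eq_card, Fintype.card_coe] at h1
        omega
      rw [Fintype.not_linearIndependent_iff] at hdep
      obtain ⟨g₀, hg₀, i₀, hi₀⟩ := hdep
      have hrel : ∃ g : supp w → ℝ, (∀ e, ∑ i : supp w, g i * v i e = 0) ∧ ∃ i, 0 < g i := by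
        have h0 : ∀ e, ∑ i : supp w, g₀ i * v i e = 0 := by
          intro e
          have := congrFun hg₀ e
          simpa [Finset.sum_apply] using this
        rcases lt_or_gt_of_ne hi₀ with h | h
        · refine ⟨fun i => - g₀ i, fun e => ?_, i₀, by simpa using h⟩
          have : ∑ i : supp w, - g₀ i * v i e = - ∑ i : supp w, g₀ i * v i e := by
            rw [← sum_neg_distrib]
            exact sum_congr rfl fun i _ => by ring
          rw [this, h0 e, neg_zero]
        · exact ⟨g₀, h0, i₀, h⟩
      obtain ⟨g, hg, i₁, hi₁⟩ := hrel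
      have hne : (univ.filter fun i : supp w => 0 < g i).Nonempty :=
        ⟨i₁, by simp [hi₁]⟩
      obtain ⟨i₂, hi₂, hmin⟩ := exists_min_image _ (fun i : supp w => w i / g i) hne
      rw [mem_filter] at hi₂
      set θ : ℝ := w i₂ / g i₂ with hθ
      have hθ0 : 0 ≤ θ := div_nonneg (hw _) hi₂.2.le
      set w₁ : α → ℝ := fun i => if h : i ∈ supp w then w i - θ * g ⟨i, h⟩ else 0 with hw₁
      have hw₁0 : ∀ i, 0 ≤ w₁ i := by
        intro i
        rw [hw₁]; dsimp only
        split_ifs with h
        · rcases le_or_gt (g ⟨i, h⟩) 0 with h1 | h1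
          · have := hw i
            nlinarith
          · have h2 := hmin ⟨i, h⟩ (by simp [h1])
            have h3 : θ * g ⟨i, h⟩ ≤ w i := by
              rw [le_div_iff₀ h1] at h2
              exact h2
            linarith
        · exact le_rfl
      have hsub : supp w₁ ⊆ (supp w).erase i₂ := by
        intro i hi
        rw [mem_supp] at hi
        rw [mem_erase]
        have hmem : i ∈ supp w := by
          by_contra h
          apply hi
          rw [hw₁]; dsimp only
          rw [dif_neg h]
        refine ⟨?_, hmem⟩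
        rintro rfl
        apply hi
        rw [hw₁]; dsimp only
        rw [dif_pos hmem, hθ]
        have : g ⟨(i₂ : α), hmem⟩ = g i₂ := rfl
        rw [this, div_mul_cancel₀ _ hi₂.2.ne', sub_self]
      have hc₁ : (supp w₁).card < m := by
        have h1 := card_le_card hsub
        rw [card_erase_of_mem i₂.2, hwm] at h1
        have h2 : 0 < (supp w).card := card_pos.2 ⟨i₂, i₂.2⟩
        omega
      have hsum₁ : ∀ e, ∑ i, w₁ i * v i e = ∑ i, w i * v i e := by
        intro e
        have h1 : ∑ i, w₁ i * v i e = ∑ i ∈ supp w, w₁ i * v i e := by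
          refine (sum_subset (subset_univ _) fun i _ hi => ?_).symm
          rw [hw₁]; dsimp only
          rw [dif_neg hi, zero_mul]
        have h2 : ∑ i, w i * v i e = ∑ i ∈ supp w, w i * v i e := by
          refine (sum_subset (subset_univ _) fun i _ hi => ?_).symm
          have : w i = 0 := by
            by_contra h0
            exact hi (mem_supp.2 h0)
          rw [this, zero_mul]
        rw [h1, h2, ← sum_coe_sort (supp w), ← sum_coe_sort (supp w)]
        have h3 : ∀ i : supp w, w₁ i * v i e = w i * v i e - θ * (g i * v i e) := by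
          intro i
          rw [hw₁]; dsimp only
          rw [dif_pos i.2]; ring
        rw [sum_congr rfl fun i _ => h3 i, sum_sub_distrib, ← mul_sum, hg e, mul_zero, sub_zero]
      obtain ⟨w', h1, h2, h3⟩ := ih _ hc₁ w₁ hw₁0 rfl
      exact ⟨w', h1, h2, fun e => (h3 e).trans (hsum₁ e)⟩
    · exact ⟨w, hw, by omega, fun _ => rfl⟩

/-- embedding defined by a weight function on the bits -/
theorem embeds_of_weights (M : Finset L1) {m : ℕ} (H : M → Finset (Fin m)) (w : Fin m → ℝ)
    (hw0 : ∀ i, 0 ≤ w i) {s D : ℝ} (hs : 0 < s)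
    (h : ∀ x y : M, s * dist x y ≤ ∑ i, w i * |bit H i x - bit H i y| ∧
      ∑ i, w i * |bit H i x - bit H i y| ≤ s * D * dist x y) :
    Embeds M D (supp w).card := by
  classical
  refine ⟨fun x => WithLp.toLp 1 fun j =>
    w ((supp w).equivFin.symm j) * bit H ((supp w).equivFin.symm j) x, s, hs, fun x y => ?_⟩
  have hdist : dist (WithLp.toLp 1 fun j => w ((supp w).equivFin.symm j) *
        bit H ((supp w).equivFin.symm j) x : L1fin (supp w).card)
      (WithLp.toLp 1 fun j => w ((supp w).equivFin.symm j) *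
        bit H ((supp w).equivFin.symm j) y : L1fin (supp w).card) =
      ∑ i, w i * |bit H i x - bit H i y| := by
    rw [PiLp.dist_eq_of_L1]
    have h1 : ∀ j : Fin (supp w).card,
        dist ((WithLp.toLp 1 fun j => w ((supp w).equivFin.symm j) *
          bit H ((supp w).equivFin.symm j) x : L1fin (supp w).card) j)
        ((WithLp.toLp 1 fun j => w ((supp w).equivFin.symm j) *
          bit H ((supp w).equivFin.symm j) y : L1fin (supp w).card) j) =
        (fun i : supp w => w i * |bit H i x - bit H i y|) ((supp w).equivFin.symm j) := by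
      intro j
      simp only [Real.dist_eq]
      rw [← mul_sub, abs_mul, abs_of_nonneg (hw0 _)]
    rw [sum_congr rfl fun j _ => h1 j,
      (supp w).equivFin.symm.sum_comp (fun i : supp w => w i * |bit H i x - bit H i y|),
      sum_coe_sort (supp w) (fun i => w i * |bit H i x - bit H i y|)]
    refine sum_subset (subset_univ _) fun i _ hi => ?_
    have : w i = 0 := by
      by_contra h0
      exact hi (mem_supp.2 h0)
    rw [this, zero_mul]
  rw [hdist]
  exact h x y

theorem embeds_sq (M : Finset L1) {n : ℕ} (hM : M.card ≤ n) {ε : ℝ} (hε : 0 < ε) (hε1 : ε ≤ 1) :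
    ∃ k' ≤ n ^ 2, Embeds M (1 + ε) k' := by
  classical
  obtain ⟨m, H, h, hh, hH⟩ := exists_hamming_near M (δ := ε / 4) (by positivity)
  obtain ⟨w, hw0, hwc, hwe⟩ := conic (ι := M × M)
    (fun (i : Fin m) (p : M × M) => |bit H i p.1 - bit H i p.2|) _ (fun _ => h)
    (fun _ => hh.le) rfl
  have hc : (supp w).card ≤ n ^ 2 := by
    refine hwc.trans ?_
    rw [Fintype.card_prod, Fintype.card_coe, sq]
    exact Nat.mul_le_mul hM hM
  refine ⟨_, hc, embeds_of_weights M H w hw0 (s := 1 - ε / 4) (by linarith) fun x y => ?_⟩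
  have h1 : ∑ i, w i * |bit H i x - bit H i y| = h * (H x ∆ H y).card := by
    rw [hwe (x, y), ← sum_bit]
    exact sum_congr rfl fun i _ => by rw [abs_bit_sub]
  rw [h1]
  have h2 := hH x y
  have hd : 0 ≤ dist x y := dist_nonneg
  have hed : 0 ≤ ε * dist x y := by positivity
  have heed : ε * (ε * dist x y) ≤ ε * dist x y := by
    have := mul_le_mul_of_nonneg_right hε1 hed
    linarith
  refine ⟨h2.1, h2.2.trans ?_⟩
  nlinarith

theorem K_le_near' : ∃ C : ℝ, 0 < C ∧ ∀ (n : ℕ) (ε : ℝ), 2 ≤ n → 0 < ε → ε ≤ 1 →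
    K n (1 + ε) ≤ ((⌊C * (min (n : ℝ) (Real.log n / ε) * n)⌋₊ : ℕ) : ℕ∞) := by
  obtain ⟨C, hC, h⟩ := K_le_near
  refine ⟨max C 1, lt_max_of_lt_left hC, fun n ε hn hε hε1 => ?_⟩
  have hn0 : (0 : ℝ) < n := by
    have : 0 < n := by omega
    exact_mod_cast this
  have hlog : 0 ≤ Real.log n := Real.log_nonneg (by exact_mod_cast (by omega : 1 ≤ n))
  rcases le_total (n : ℝ) (Real.log n / ε) with hc | hc
  · rw [min_eq_left hc]
    refine iSup₂_le fun M hM => ?_
    obtain ⟨k', hk', hemb⟩ := embeds_sq M hM hε hε1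
    refine (iInf₂_le k' hemb).trans ?_
    have h1 : k' ≤ ⌊max C 1 * ((n : ℝ) * n)⌋₊ := by
      refine Nat.le_floor ?_
      have h2 : (k' : ℝ) ≤ (n : ℝ) * n := by
        have : (k' : ℝ) ≤ ((n ^ 2 : ℕ) : ℝ) := by exact_mod_cast hk'
        rw [Nat.cast_pow, sq] at this
        exact this
      have h3 : (1 : ℝ) * ((n : ℝ) * n) ≤ max C 1 * ((n : ℝ) * n) :=
        mul_le_mul_of_nonneg_right (le_max_right _ _) (by positivity)
      linarith
    exact_mod_cast h1
  · rw [min_eq_right hc]
    refine (h n ε hn hε hε1).trans ?_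
    have h1 : ⌊C * (n * Real.log n / ε)⌋₊ ≤ ⌊max C 1 * (Real.log n / ε * n)⌋₊ := by
      apply Nat.floor_le_floor
      have e : (n : ℝ) * Real.log n / ε = Real.log n / ε * n := by ring
      rw [e]
      exact mul_le_mul_of_nonneg_right (le_max_left _ _) (by positivity)
    exact_mod_cast h1

end Pool.Agent.Lib.MP_716709_gt.Near
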