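import Mathlib

/-! Partial colouring lemma by entropy and pigeonhole (step 2 of the near-isometric
dimension reduction). -/

open Finset

namespace Pool.Agent.Lib.MP_716709_gt.Near

/-- the sign vector of a set -/
noncomputable def sg {α : Type*} [DecidableEq α] (T : Finset α) (i : α) : ℝ :=
  if i ∈ T then 1 else -1

lemma moments {α : Type*} [DecidableEq α] (c : α → ℝ) (S : Finset α) :
    (∑ T ∈ S.powerset, (∑ i ∈ S, c i * sg T i) ^ 2 = 2 ^ S.card * ∑ i ∈ S, c i ^ 2) ∧
    (∑ T ∈ S.powerset, (∑ i ∈ S, c i * sg T i) ^ 4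
      ≤ 3 * 2 ^ S.card * (∑ i ∈ S, c i ^ 2) ^ 2) := by
  induction S using Finset.induction_on with
  | empty => simp
  | insert a S ha ih =>
    obtain ⟨ih2, ih4⟩ := ih
    have key1 : ∀ T ∈ S.powerset,
        ∑ i ∈ insert a S, c i * sg T i = ∑ i ∈ S, c i * sg T i - c a := by
      intro T hT
      rw [Finset.mem_powerset] at hT
      have haT : a ∉ T := fun h => ha (hT h)
      rw [Finset.sum_insert ha]
      have : sg T a = -1 := by simp [sg, haT]
      rw [this]
      ring
    have key2 : ∀ T ∈ S.powerset,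
        ∑ i ∈ insert a S, c i * sg (insert a T) i = ∑ i ∈ S, c i * sg T i + c a := by
      intro T _
      rw [Finset.sum_insert ha]
      have h1 : ∑ i ∈ S, c i * sg (insert a T) i = ∑ i ∈ S, c i * sg T i := by
        apply Finset.sum_congr rfl
        intro i hi
        have : i ≠ a := fun h => ha (h ▸ hi)
        simp [sg, this]
      have h2 : sg (insert a T) a = 1 := by simp [sg]
      rw [h1, h2]
      ring
    rw [Finset.card_insert_of_notMem ha, Finset.sum_insert ha,
      Finset.sum_powerset_insert ha, Finset.sum_powerset_insert ha]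
    constructor
    · rw [← Finset.sum_add_distrib]
      have : ∀ T ∈ S.powerset, (∑ i ∈ insert a S, c i * sg T i) ^ 2
          + (∑ i ∈ insert a S, c i * sg (insert a T) i) ^ 2
          = 2 * (∑ i ∈ S, c i * sg T i) ^ 2 + 2 * c a ^ 2 := by
        intro T hT
        rw [key1 T hT, key2 T hT]
        ring
      rw [Finset.sum_congr rfl this, Finset.sum_add_distrib, ← Finset.mul_sum, ih2,
        Finset.sum_const, Finset.card_powerset, nsmul_eq_mul]
      push_cast
      ring
    · rw [← Finset.sum_add_distrib]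
      have : ∀ T ∈ S.powerset, (∑ i ∈ insert a S, c i * sg T i) ^ 4
          + (∑ i ∈ insert a S, c i * sg (insert a T) i) ^ 4
          = 2 * (∑ i ∈ S, c i * sg T i) ^ 4 + 12 * c a ^ 2 * (∑ i ∈ S, c i * sg T i) ^ 2
            + 2 * c a ^ 4 := by
        intro T hT
        rw [key1 T hT, key2 T hT]
        ring
      rw [Finset.sum_congr rfl this, Finset.sum_add_distrib, Finset.sum_add_distrib,
        ← Finset.mul_sum, ← Finset.mul_sum, ih2,
        Finset.sum_const, Finset.card_powerset, nsmul_eq_mul]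
      push_cast
      have hp : (0 : ℝ) < 2 ^ S.card := by positivity
      have e : 3 * 2 ^ (S.card + 1) * (c a ^ 2 + ∑ i ∈ S, c i ^ 2) ^ 2
          - (2 * (3 * 2 ^ S.card * (∑ i ∈ S, c i ^ 2) ^ 2)
            + 12 * c a ^ 2 * (2 ^ S.card * ∑ i ∈ S, c i ^ 2) + 2 ^ S.card * (2 * c a ^ 4))
          = 4 * 2 ^ S.card * c a ^ 4 := by ring
      have e2 : 0 ≤ 4 * (2 : ℝ) ^ S.card * c a ^ 4 := by positivity
      linarith

/-- the weight of a code letter -/
noncomputable def wt (x : ℝ) (b : ℤ) : ℝ :=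
  if b = 0 then 1 - min (1 / 2) x else min (1 / 2) x * (1 / 2) ^ b.natAbs / 2

lemma wt_nonneg {x : ℝ} (hx : 0 ≤ x) (b : ℤ) : 0 ≤ wt x b := by
  unfold wt
  have h1 : min (1 / 2) x ≤ 1 / 2 := min_le_left _ _
  have h2 : 0 ≤ min (1 / 2) x := le_min (by norm_num) hx
  split_ifs
  · linarith
  · positivity

lemma wt_sum_Icc {x : ℝ} (R : ℕ) :
    ∑ b ∈ Finset.Icc (-(R : ℤ)) R, wt x b = 1 - min (1 / 2) x * (1 / 2) ^ R := by
  induction R with
  | zero => simp [wt]
  | succ R ih =>
    have h1 : Finset.Icc (-((R + 1 : ℕ) : ℤ)) ((R + 1 : ℕ) : ℤ)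
        = insert ((R : ℤ) + 1) (insert (-((R : ℤ) + 1)) (Finset.Icc (-(R : ℤ)) R)) := by
      ext b
      simp only [Finset.mem_Icc, Finset.mem_insert]
      push_cast
      omega
    rw [h1, Finset.sum_insert, Finset.sum_insert, ih]
    · have e1 : wt x ((R : ℤ) + 1) = min (1 / 2) x * (1 / 2) ^ (R + 1) / 2 := by
        unfold wt
        have : ((R : ℤ) + 1) ≠ 0 := by omega
        have h2 : ((R : ℤ) + 1).natAbs = R + 1 := by omega
        rw [if_neg this, h2]
      have e2 : wt x (-((R : ℤ) + 1)) = min (1 / 2) x * (1 / 2) ^ (R + 1) / 2 := by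
        unfold wt
        have : (-((R : ℤ) + 1)) ≠ 0 := by omega
        have h2 : (-((R : ℤ) + 1)).natAbs = R + 1 := by omega
        rw [if_neg this, h2]
      rw [e1, e2]
      ring
    · simp
    · simp only [Finset.mem_Icc, Finset.mem_insert, not_or]
      omega

lemma wt_sum {x : ℝ} (hx : 0 ≤ x) (s : Finset ℤ) : ∑ b ∈ s, wt x b ≤ 1 := by
  obtain ⟨R, hR⟩ : ∃ R : ℕ, s ⊆ Finset.Icc (-(R : ℤ)) R := by
    refine ⟨∑ b ∈ s, b.natAbs, ?_⟩
    intro b hb
    have : b.natAbs ≤ ∑ b ∈ s, b.natAbs :=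
      Finset.single_le_sum (f := fun b : ℤ => b.natAbs) (fun _ _ => Nat.zero_le _) hb
    rw [Finset.mem_Icc]
    omega
  calc ∑ b ∈ s, wt x b ≤ ∑ b ∈ Finset.Icc (-(R : ℤ)) R, wt x b :=
        Finset.sum_le_sum_of_subset_of_nonneg hR (fun b _ _ => wt_nonneg hx b)
    _ = 1 - min (1 / 2) x * (1 / 2) ^ R := wt_sum_Icc R
    _ ≤ 1 := by
        have h2 : 0 ≤ min (1 / 2) x := le_min (by norm_num) hx
        have : 0 ≤ min (1 / 2) x * (1 / 2) ^ R := by positivity
        linarith

/-- the code length bound -/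
noncomputable def len (x z : ℝ) : ℝ := 2 * x + 16 * z ^ 4 / x + 6 * z ^ 2

lemma wt_ge {x z : ℝ} (hx : 0 ≤ x) (hz : x = 0 → z = 0) :
    Real.exp (-(len x z)) ≤ wt x (round z) := by
  have hr := abs_sub_round z
  unfold wt len
  split_ifs with h
  · have h1 : min (1 / 2) x ≤ 1 / 2 := min_le_left _ _
    have h2 : 0 ≤ min (1 / 2) x := le_min (by norm_num) hx
    have h3 : min (1 / 2) x ≤ x := min_le_right _ _
    set p := min (1 / 2) x with hp
    have h4 : Real.exp (-(2 * x + 16 * z ^ 4 / x + 6 * z ^ 2)) ≤ Real.exp (-(2 * p)) := by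
      apply Real.exp_le_exp.2
      have : 0 ≤ 16 * z ^ 4 / x := by positivity
      have : 0 ≤ 6 * z ^ 2 := by positivity
      linarith
    refine h4.trans ?_
    rw [Real.exp_neg, inv_le_comm₀ (Real.exp_pos _) (by linarith)]
    have h5 : 2 * p + 1 ≤ Real.exp (2 * p) := Real.add_one_le_exp _
    have h6 : (1 - p)⁻¹ ≤ 2 * p + 1 := by
      rw [inv_le_iff_one_le_mul₀ (by linarith)]
      nlinarith
    linarith
  · have hx0 : 0 < x := by
      rcases hx.lt_or_eq with h' | h'
      · exact h'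
      · exfalso; apply h; rw [hz h'.symm]; simp
    have hb1 : (1 : ℝ) ≤ ((round z).natAbs : ℝ) := by
      have : 1 ≤ (round z).natAbs := by omega
      exact_mod_cast this
    have hbabs : ((round z).natAbs : ℝ) = |((round z : ℤ) : ℝ)| := by
      rw [← Int.cast_abs, Int.abs_eq_natAbs]; simp
    have hzb : |((round z : ℤ) : ℝ)| ≤ |z| + 1 / 2 := by
      calc |((round z : ℤ) : ℝ)| = |z - (z - (round z : ℤ))| := by ring_nf
        _ ≤ |z| + |z - (round z : ℤ)| := abs_sub _ _
        _ ≤ |z| + 1 / 2 := by linarith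
    have hz1 : 1 / 2 ≤ |z| := by
      rw [hbabs] at hb1; linarith
    have hb2 : ((round z).natAbs : ℝ) ≤ 2 * |z| := by rw [hbabs]; linarith
    have hz2 : z ^ 2 = |z| ^ 2 := (sq_abs z).symm
    have hlog2 : Real.log 2 < 0.6931471808 := Real.log_two_lt_d9
    have hlog2' : 0 < Real.log 2 := Real.log_pos (by norm_num)
    have e1 : Real.exp (-(6 * z ^ 2)) ≤ (1 / 2) ^ (round z).natAbs / 2 := by
      have : ((1 : ℝ) / 2) ^ (round z).natAbs / 2
          = Real.exp (-(((round z).natAbs + 1 : ℝ) * Real.log 2)) := by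
        rw [Real.exp_neg, mul_comm, Real.exp_mul, Real.exp_log (by norm_num)]
        have : (((round z).natAbs : ℝ) + 1) = (((round z).natAbs + 1 : ℕ) : ℝ) := by push_cast; ring
        rw [this, Real.rpow_natCast, pow_succ]
        simp
        ring
      rw [this]
      apply Real.exp_le_exp.2
      have h7 : ((round z).natAbs + 1 : ℝ) * Real.log 2 ≤ (2 * |z| + 1) * 0.6931471808 := by
        apply mul_le_mul (by linarith) hlog2.le hlog2'.le (by positivity)
      have h8 : (2 * |z| + 1) * 0.6931471808 ≤ 6 * |z| ^ 2 := by nlinarith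
      rw [hz2]
      linarith
    have e2 : Real.exp (-(2 * x + 16 * z ^ 4 / x)) ≤ min (1 / 2) x := by
      have hz4 : 1 ≤ 16 * z ^ 4 := by
        have : z ^ 4 = |z| ^ 4 := by
          rw [show (4 : ℕ) = 2 * 2 from rfl, pow_mul, pow_mul, sq_abs]
        rw [this]
        have : (1 / 2 : ℝ) ^ 4 ≤ |z| ^ 4 := pow_le_pow_left₀ (by norm_num) hz1 4
        norm_num at this ⊢
        linarith
      rw [le_min_iff]
      constructor
      · by_cases hxx : x ≤ 1 / 2
        · -- 16 z^4/x ≥ 2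
          have : 2 ≤ 16 * z ^ 4 / x := by
            rw [le_div_iff₀ hx0]; linarith
          calc Real.exp (-(2 * x + 16 * z ^ 4 / x)) ≤ Real.exp (-1) := by
                apply Real.exp_le_exp.2; linarith
            _ ≤ 1 / 2 := by
                rw [Real.exp_neg, one_div]
                apply inv_anti₀ (by norm_num)
                have := Real.add_one_le_exp (1 : ℝ)
                linarith
        · push Not at hxx
          have : 0 ≤ 16 * z ^ 4 / x := by positivity
          calc Real.exp (-(2 * x + 16 * z ^ 4 / x)) ≤ Real.exp (-1) := by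
                apply Real.exp_le_exp.2; linarith
            _ ≤ 1 / 2 := by
                rw [Real.exp_neg, one_div]
                apply inv_anti₀ (by norm_num)
                have := Real.add_one_le_exp (1 : ℝ)
                linarith
      · have h9 : 1 / x ≤ 16 * z ^ 4 / x := by
          apply div_le_div_of_nonneg_right hz4 hx0.le
        calc Real.exp (-(2 * x + 16 * z ^ 4 / x)) ≤ Real.exp (-(1 / x)) := by
              apply Real.exp_le_exp.2; linarith
          _ ≤ x := by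
              rw [Real.exp_neg, inv_le_comm₀ (Real.exp_pos _) hx0]
              have := Real.add_one_le_exp (1 / x)
              rw [one_div] at this ⊢
              linarith
    have e3 : Real.exp (-(2 * x + 16 * z ^ 4 / x + 6 * z ^ 2))
        = Real.exp (-(2 * x + 16 * z ^ 4 / x)) * Real.exp (-(6 * z ^ 2)) := by
      rw [← Real.exp_add]; congr 1; ring
    rw [e3]
    calc Real.exp (-(2 * x + 16 * z ^ 4 / x)) * Real.exp (-(6 * z ^ 2))
        ≤ min (1 / 2) x * ((1 / 2) ^ (round z).natAbs / 2) :=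
          mul_le_mul e2 e1 (Real.exp_pos _).le (le_min (by norm_num) hx)
      _ = _ := by ring

lemma ball_le {α : Type*} [DecidableEq α] (S T₀ : Finset α) (hT₀ : T₀ ⊆ S)
    (C : Finset (Finset α)) (hC : C ⊆ S.powerset)
    (h : ∀ T ∈ C, 16 * (symmDiff T T₀).card ≤ S.card) :
    (C.card : ℝ) ≤ (11 / 8 : ℝ) ^ S.card := by
  have h1 : ∀ T ∈ C, (1 : ℝ) ≤ (11 / 10) ^ S.card * (1 / 4) ^ (symmDiff T T₀).card := by
    intro T hT
    have h2 : ((11 / 10 : ℝ) ^ 16) ^ (symmDiff T T₀).card ≤ (11 / 10) ^ S.card := by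
      rw [← pow_mul]
      exact pow_le_pow_right₀ (by norm_num) (h T hT)
    have h3 : (4 : ℝ) ^ (symmDiff T T₀).card ≤ ((11 / 10 : ℝ) ^ 16) ^ (symmDiff T T₀).card :=
      pow_le_pow_left₀ (by norm_num) (by norm_num) _
    have h4 : (4 : ℝ) ^ (symmDiff T T₀).card * (1 / 4) ^ (symmDiff T T₀).card = 1 := by
      rw [← mul_pow]; norm_num
    calc (1 : ℝ) = (4 : ℝ) ^ (symmDiff T T₀).card * (1 / 4) ^ (symmDiff T T₀).card := h4.symm
      _ ≤ _ := mul_le_mul_of_nonneg_right (h3.trans h2) (by positivity)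
  have h5 : ∑ T ∈ S.powerset, (1 / 4 : ℝ) ^ (symmDiff T T₀).card = (5 / 4) ^ S.card := by
    have h6 := Finset.sum_pow_mul_eq_add_pow (1 / 4 : ℝ) 1 S
    norm_num at h6
    have h7 : ∑ T ∈ S.powerset, (1 / 4 : ℝ) ^ (symmDiff T T₀).card
        = ∑ T ∈ S.powerset, (1 / 4 : ℝ) ^ T.card := by
      refine Finset.sum_nbij' (fun T => symmDiff T T₀) (fun T => symmDiff T T₀) ?_ ?_ ?_ ?_ ?_
      · intro T hT
        rw [Finset.mem_powerset] at hT ⊢
        exact (Finset.symmDiff_subset_union).trans (Finset.union_subset hT hT₀)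
      · intro T hT
        rw [Finset.mem_powerset] at hT ⊢
        exact (Finset.symmDiff_subset_union).trans (Finset.union_subset hT hT₀)
      · intro T _; exact symmDiff_symmDiff_cancel_right _ _
      · intro T _; exact symmDiff_symmDiff_cancel_right _ _
      · intro T _; rfl
    rw [h7, h6]
  calc (C.card : ℝ) = ∑ T ∈ C, (1 : ℝ) := by simp
    _ ≤ ∑ T ∈ C, (11 / 10) ^ S.card * (1 / 4 : ℝ) ^ (symmDiff T T₀).card := Finset.sum_le_sum h1
    _ ≤ ∑ T ∈ S.powerset, (11 / 10) ^ S.card * (1 / 4 : ℝ) ^ (symmDiff T T₀).card :=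
        Finset.sum_le_sum_of_subset_of_nonneg hC (fun _ _ _ => by positivity)
    _ = (11 / 10) ^ S.card * (5 / 4) ^ S.card := by rw [← Finset.mul_sum, h5]
    _ = (11 / 8) ^ S.card := by rw [← mul_pow]; norm_num

theorem partial_coloring {α ι : Type*} [DecidableEq α] [Fintype ι] (S : Finset α)
    (hS : S.Nonempty) (a : ι → α → ℝ) (Δ : ℝ) (hΔ : 0 < Δ)
    (h : 224 * ∑ j, ∑ i ∈ S, a j i ^ 2 ≤ S.card * Δ ^ 2) :
    ∃ χ : α → ℝ, (∀ i, χ i = -1 ∨ χ i = 0 ∨ χ i = 1) ∧
      (S.card : ℝ) < 16 * (S.filter (fun i => χ i ≠ 0)).card ∧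
      ∀ j, |∑ i ∈ S, a j i * χ i| ≤ Δ := by
  classical
  set m := S.card with hm
  let z : ι → Finset α → ℝ := fun j T => (∑ i ∈ S, a j i * sg T i) / Δ
  let x : ι → ℝ := fun j => (∑ i ∈ S, a j i ^ 2) / Δ ^ 2
  let code : Finset α → (ι → ℤ) := fun T j => round (z j T)
  have hx0 : ∀ j, 0 ≤ x j := fun j => by positivity
  have hxz : ∀ j T, x j = 0 → z j T = 0 := by
    intro j T hj
    have h1 : ∑ i ∈ S, a j i ^ 2 = 0 := by
      have : (∑ i ∈ S, a j i ^ 2) / Δ ^ 2 = 0 := hj
      rcases div_eq_zero_iff.1 this with h' | h'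
      · exact h'
      · exact absurd h' (by positivity)
    have h2 : ∀ i ∈ S, a j i ^ 2 = 0 :=
      (Finset.sum_eq_zero_iff_of_nonneg (fun i _ => sq_nonneg _)).1 h1
    have h3 : ∑ i ∈ S, a j i * sg T i = 0 := by
      apply Finset.sum_eq_zero
      intro i hi
      have : a j i = 0 := by simpa using h2 i hi
      rw [this, zero_mul]
    show (∑ i ∈ S, a j i * sg T i) / Δ = 0
    rw [h3, zero_div]
  have hxsum : ∑ j, x j ≤ m / 224 := by
    have : ∑ j, x j = (∑ j, ∑ i ∈ S, a j i ^ 2) / Δ ^ 2 := by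
      rw [Finset.sum_div]
    rw [this, div_le_div_iff₀ (by positivity) (by norm_num)]
    linarith
  -- moments
  have hmom2 : ∀ j, ∑ T ∈ S.powerset, z j T ^ 2 = 2 ^ m * x j := by
    intro j
    have h1 := (moments (a j) S).1
    have : ∑ T ∈ S.powerset, z j T ^ 2
        = (∑ T ∈ S.powerset, (∑ i ∈ S, a j i * sg T i) ^ 2) / Δ ^ 2 := by
      rw [Finset.sum_div]
      apply Finset.sum_congr rfl
      intro T _
      show ((∑ i ∈ S, a j i * sg T i) / Δ) ^ 2 = _
      rw [div_pow]
    rw [this, h1]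
    show _ = 2 ^ m * ((∑ i ∈ S, a j i ^ 2) / Δ ^ 2)
    rw [mul_div_assoc]
  have hmom4 : ∀ j, ∑ T ∈ S.powerset, z j T ^ 4 ≤ 3 * 2 ^ m * x j ^ 2 := by
    intro j
    have h1 := (moments (a j) S).2
    have : ∑ T ∈ S.powerset, z j T ^ 4
        = (∑ T ∈ S.powerset, (∑ i ∈ S, a j i * sg T i) ^ 4) / Δ ^ 4 := by
      rw [Finset.sum_div]
      apply Finset.sum_congr rfl
      intro T _
      show ((∑ i ∈ S, a j i * sg T i) / Δ) ^ 4 = _
      rw [div_pow]
    rw [this]
    show _ ≤ 3 * 2 ^ m * ((∑ i ∈ S, a j i ^ 2) / Δ ^ 2) ^ 2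
    rw [div_pow, ← pow_mul, ← mul_div_assoc]
    exact div_le_div_of_nonneg_right h1 (by positivity)
  -- mean of the length
  have hlen : ∀ j, ∑ T ∈ S.powerset, len (x j) (z j T) ≤ 2 ^ m * (56 * x j) := by
    intro j
    have h1 : ∑ T ∈ S.powerset, len (x j) (z j T)
        = 2 ^ m * (2 * x j) + 16 * (∑ T ∈ S.powerset, z j T ^ 4) / x j
          + 6 * ∑ T ∈ S.powerset, z j T ^ 2 := by
      unfold len
      rw [Finset.sum_add_distrib, Finset.sum_add_distrib, Finset.sum_const,
        Finset.card_powerset, nsmul_eq_mul, ← Finset.mul_sum, ← Finset.sum_div, ← Finset.mul_sum]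
      push_cast
      rfl
    rw [h1, hmom2]
    have h2 : 16 * (∑ T ∈ S.powerset, z j T ^ 4) / x j ≤ 2 ^ m * (48 * x j) := by
      rcases (hx0 j).lt_or_eq with h' | h'
      · rw [div_le_iff₀ h']
        nlinarith [hmom4 j]
      · rw [← h']; simp
    linarith
  have hlensum : ∑ T ∈ S.powerset, ∑ j, len (x j) (z j T) ≤ 2 ^ m * (m / 4) := by
    rw [Finset.sum_comm]
    calc ∑ j, ∑ T ∈ S.powerset, len (x j) (z j T) ≤ ∑ j, 2 ^ m * (56 * x j) :=
          Finset.sum_le_sum (fun j _ => hlen j)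
      _ = 2 ^ m * (56 * ∑ j, x j) := by rw [← Finset.mul_sum, ← Finset.mul_sum]
      _ ≤ 2 ^ m * (m / 4) := by
          apply mul_le_mul_of_nonneg_left _ (by positivity)
          linarith
  -- Jensen
  have hJ : 2 ^ m * Real.exp (-((m : ℝ) / 4))
      ≤ ∑ T ∈ S.powerset, Real.exp (-(∑ j, len (x j) (z j T))) := by
    have h1 : ∀ T ∈ S.powerset, Real.exp (-((m : ℝ) / 4)) *
        (1 + (m : ℝ) / 4 - ∑ j, len (x j) (z j T))
        ≤ Real.exp (-(∑ j, len (x j) (z j T))) := by
      intro T _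
      have h2 := Real.add_one_le_exp ((m : ℝ) / 4 - ∑ j, len (x j) (z j T))
      calc Real.exp (-((m : ℝ) / 4)) * (1 + (m : ℝ) / 4 - ∑ j, len (x j) (z j T))
          ≤ Real.exp (-((m : ℝ) / 4)) * Real.exp ((m : ℝ) / 4 - ∑ j, len (x j) (z j T)) := by
            apply mul_le_mul_of_nonneg_left _ (Real.exp_pos _).le
            linarith
        _ = Real.exp (-(∑ j, len (x j) (z j T))) := by
            rw [← Real.exp_add]; congr 1; ring
    refine le_trans ?_ (Finset.sum_le_sum h1)
    rw [← Finset.mul_sum, Finset.sum_sub_distrib, Finset.sum_const, Finset.card_powerset,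
      nsmul_eq_mul]
    push_cast
    rw [mul_comm]
    apply mul_le_mul_of_nonneg_left _ (Real.exp_pos _).le
    linarith
  -- the codes
  have hcode : ∑ T ∈ S.powerset, Real.exp (-(∑ j, len (x j) (z j T)))
      ≤ ∑ T ∈ S.powerset, ∏ j, wt (x j) (code T j) := by
    apply Finset.sum_le_sum
    intro T _
    rw [← Finset.sum_neg_distrib, Real.exp_sum]
    apply Finset.prod_le_prod (fun j _ => (Real.exp_pos _).le)
    intro j _
    exact wt_ge (hx0 j) (hxz j T)
  have hsum1 : ∑ β ∈ S.powerset.image code, ∏ j, wt (x j) (β j) ≤ 1 := by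
    let t : ι → Finset ℤ := fun j => S.powerset.image (fun T => code T j)
    have hsub : S.powerset.image code ⊆ Fintype.piFinset t := by
      intro β hβ
      rw [Finset.mem_image] at hβ
      obtain ⟨T, hT, rfl⟩ := hβ
      rw [Fintype.mem_piFinset]
      intro j
      exact Finset.mem_image_of_mem _ hT
    calc ∑ β ∈ S.powerset.image code, ∏ j, wt (x j) (β j)
        ≤ ∑ β ∈ Fintype.piFinset t, ∏ j, wt (x j) (β j) :=
          Finset.sum_le_sum_of_subset_of_nonneg hsub
            (fun β _ _ => Finset.prod_nonneg (fun j _ => wt_nonneg (hx0 j) _))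
      _ = ∏ j, ∑ b ∈ t j, wt (x j) b := (Finset.prod_univ_sum t _).symm
      _ ≤ ∏ j : ι, (1 : ℝ) := Finset.prod_le_prod
            (fun j _ => Finset.sum_nonneg (fun b _ => wt_nonneg (hx0 j) b))
            (fun j _ => wt_sum (hx0 j) _)
      _ = 1 := by simp
  -- two sets with the same code which are far apart
  obtain ⟨T, hT, T₀, hT₀, hTT, hfar⟩ : ∃ T ∈ S.powerset, ∃ T₀ ∈ S.powerset,
      code T = code T₀ ∧ S.card < 16 * (symmDiff T T₀).card := by
    by_contra hcon
    push Not at hcon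
    have hclass : ∀ β ∈ S.powerset.image code,
        ((S.powerset.filter (fun T => code T = β)).card : ℝ) ≤ (11 / 8 : ℝ) ^ S.card := by
      intro β hβ
      rw [Finset.mem_image] at hβ
      obtain ⟨T₀, hT₀, rfl⟩ := hβ
      apply ball_le S T₀ (Finset.mem_powerset.1 hT₀) _ (Finset.filter_subset _ _)
      intro T hT
      rw [Finset.mem_filter] at hT
      exact hcon T hT.1 T₀ hT₀ hT.2
    have h1 : ∑ T ∈ S.powerset, ∏ j, wt (x j) (code T j) ≤ (11 / 8 : ℝ) ^ S.card := by
      have h2 : ∑ T ∈ S.powerset, ∏ j, wt (x j) (code T j)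
          = ∑ β ∈ S.powerset.image code,
            (S.powerset.filter (fun T => code T = β)).card • ∏ j, wt (x j) (β j) :=
        Finset.sum_comp (fun β : ι → ℤ => ∏ j, wt (x j) (β j)) code
      rw [h2]
      calc ∑ β ∈ S.powerset.image code,
            (S.powerset.filter (fun T => code T = β)).card • ∏ j, wt (x j) (β j)
          ≤ ∑ β ∈ S.powerset.image code, (11 / 8 : ℝ) ^ S.card * ∏ j, wt (x j) (β j) := by
            apply Finset.sum_le_sum
            intro β hβ
            rw [nsmul_eq_mul]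
            exact mul_le_mul_of_nonneg_right (hclass β hβ)
              (Finset.prod_nonneg (fun j _ => wt_nonneg (hx0 j) _))
        _ = (11 / 8 : ℝ) ^ S.card * ∑ β ∈ S.powerset.image code, ∏ j, wt (x j) (β j) := by
            rw [← Finset.mul_sum]
        _ ≤ (11 / 8 : ℝ) ^ S.card * 1 := by
            apply mul_le_mul_of_nonneg_left hsum1 (by positivity)
        _ = _ := mul_one _
    have h3 : (3 / 2 : ℝ) ^ m ≤ 2 ^ m * Real.exp (-((m : ℝ) / 4)) := by
      have h4 : (3 / 4 : ℝ) ≤ Real.exp (-(1 / 4)) := by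
        have := Real.add_one_le_exp (-(1 / 4) : ℝ)
        linarith
      have h5 : Real.exp (-((m : ℝ) / 4)) = Real.exp (-(1 / 4)) ^ m := by
        rw [← Real.exp_nat_mul]; congr 1; ring
      rw [h5, ← mul_pow]
      apply pow_le_pow_left₀ (by norm_num)
      linarith
    have h6 : (11 / 8 : ℝ) ^ m < (3 / 2 : ℝ) ^ m := by
      apply pow_lt_pow_left₀ (by norm_num) (by norm_num)
      exact Finset.card_ne_zero.2 hS
    have := h3.trans (hJ.trans (hcode.trans h1))
    linarith
  rw [Finset.mem_powerset] at hT hT₀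
  refine ⟨fun i => (sg T i - sg T₀ i) / 2, ?_, ?_, ?_⟩
  · intro i
    show (sg T i - sg T₀ i) / 2 = -1 ∨ (sg T i - sg T₀ i) / 2 = 0 ∨ (sg T i - sg T₀ i) / 2 = 1
    unfold sg
    split_ifs <;> norm_num
  · have hset : S.filter (fun i => (sg T i - sg T₀ i) / 2 ≠ 0) = symmDiff T T₀ := by
      ext i
      rw [Finset.mem_filter, Finset.mem_symmDiff]
      unfold sg
      constructor
      · rintro ⟨_, h2⟩
        by_cases h3 : i ∈ T <;> by_cases h4 : i ∈ T₀ <;> simp [h3, h4] at h2 ⊢
      · rintro (⟨h1, h2⟩ | ⟨h1, h2⟩)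
        · refine ⟨hT h1, ?_⟩
          rw [if_pos h1, if_neg h2]
          norm_num
        · refine ⟨hT₀ h1, ?_⟩
          rw [if_pos h1, if_neg h2]
          norm_num
    rw [hset]
    exact_mod_cast hfar
  · intro j
    have h1 : ∑ i ∈ S, a j i * ((sg T i - sg T₀ i) / 2) = Δ * (z j T - z j T₀) / 2 := by
      show _ = Δ * ((∑ i ∈ S, a j i * sg T i) / Δ - (∑ i ∈ S, a j i * sg T₀ i) / Δ) / 2
      rw [← sub_div, mul_div_cancel₀ _ hΔ.ne', ← Finset.sum_sub_distrib, Finset.sum_div]
      apply Finset.sum_congr rfl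
      intro i _
      ring
    rw [h1]
    have h2 : |z j T - z j T₀| ≤ 1 := by
      have h3 := abs_sub_round (z j T)
      have h4 := abs_sub_round (z j T₀)
      have h5 : round (z j T) = round (z j T₀) := congrFun hTT j
      rw [h5] at h3
      calc |z j T - z j T₀| = |(z j T - (round (z j T₀) : ℤ)) - (z j T₀ - (round (z j T₀) : ℤ))| := by
            ring_nf
        _ ≤ |z j T - (round (z j T₀) : ℤ)| + |z j T₀ - (round (z j T₀) : ℤ)| := abs_sub _ _
        _ ≤ 1 := by linarith
    rw [abs_div, abs_mul, abs_of_pos hΔ, abs_of_pos (by norm_num : (0 : ℝ) < 2)]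
    have : Δ * |z j T - z j T₀| ≤ Δ * 1 := mul_le_mul_of_nonneg_left h2 hΔ.le
    linarith

end Pool.Agent.Lib.MP_716709_gt.Near
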