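import Mathlib

/-!
# MP_716709_gt: sparse spanners for the square root cost

For a finite subset `V` of a metric space with fewer than `2 ^ κ` points there is a set of at most
`5 |V|` pairs such that every difference `δ_x - δ_y` with `x, y ∈ V` is a combination of the
differences along these pairs, at cost `∑ |c_e| √d(e) ≤ 640 √κ √d(x,y)`.
-/

namespace Pool.Agent.Lib.MP_716709_gt.Near

open Finset

/-- `δ_x - δ_y` is a combination of the differences along the pairs of `E`, at square root
cost at most `T`. -/
def Span {X : Type*} [MetricSpace X] (E : Finset (X × X)) (x y : X) (T : ℝ) : Prop :=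
  ∃ c : X × X → ℝ, (∀ g : X → ℝ, g x - g y = ∑ e ∈ E, c e * (g e.1 - g e.2)) ∧
    ∑ e ∈ E, |c e| * √(dist e.1 e.2) ≤ T

variable {X : Type*} [MetricSpace X]

theorem Span.refl (E : Finset (X × X)) (x : X) : Span E x x 0 :=
  ⟨fun _ => 0, by intro g; simp, by simp⟩

theorem Span.symm {E : Finset (X × X)} {x y : X} {T : ℝ} (h : Span E x y T) : Span E y x T := by
  obtain ⟨c, hc, hT⟩ := h
  refine ⟨fun e => -c e, ?_, by simpa using hT⟩
  intro g
  have := hc g
  simp only [neg_mul, Finset.sum_neg_distrib]
  linarith

theorem Span.trans {E : Finset (X × X)} {x y z : X} {T T' : ℝ} (h : Span E x y T)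
    (h' : Span E y z T') : Span E x z (T + T') := by
  obtain ⟨c, hc, hT⟩ := h
  obtain ⟨c', hc', hT'⟩ := h'
  refine ⟨fun e => c e + c' e, ?_, ?_⟩
  · intro g
    have h1 := hc g
    have h2 := hc' g
    simp only [add_mul, Finset.sum_add_distrib]
    linarith
  · calc ∑ e ∈ E, |c e + c' e| * √(dist e.1 e.2)
        ≤ ∑ e ∈ E, (|c e| * √(dist e.1 e.2) + |c' e| * √(dist e.1 e.2)) := by
          refine Finset.sum_le_sum fun e _ => ?_
          rw [← add_mul]
          exact mul_le_mul_of_nonneg_right (abs_add_le _ _) (Real.sqrt_nonneg _)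
      _ = ∑ e ∈ E, |c e| * √(dist e.1 e.2) + ∑ e ∈ E, |c' e| * √(dist e.1 e.2) :=
          Finset.sum_add_distrib
      _ ≤ T + T' := add_le_add hT hT'

theorem Span.mono {E : Finset (X × X)} {x y : X} {T T' : ℝ} (h : Span E x y T) (hT : T ≤ T') :
    Span E x y T' := by
  obtain ⟨c, hc, h1⟩ := h
  exact ⟨c, hc, h1.trans hT⟩

theorem Span.mono_set {E E' : Finset (X × X)} {x y : X} {T : ℝ} (h : Span E x y T)
    (hE : E ⊆ E') : Span E' x y T := by
  classical
  obtain ⟨c, hc, h1⟩ := h
  refine ⟨fun e => if e ∈ E then c e else 0, ?_, ?_⟩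
  · intro g
    rw [hc g, ← Finset.sum_subset hE]
    · exact Finset.sum_congr rfl fun e he => by simp [he]
    · intro e _ he
      simp [he]
  · rw [← Finset.sum_subset hE]
    · refine le_trans (le_of_eq ?_) h1
      exact Finset.sum_congr rfl fun e he => by simp [he]
    · intro e _ he
      simp [he]

theorem Span.of_mem {E : Finset (X × X)} {x y : X} (h : (x, y) ∈ E) :
    Span E x y (√(dist x y)) := by
  classical
  refine ⟨fun e => if e = (x, y) then 1 else 0, ?_, ?_⟩
  · intro g
    rw [Finset.sum_eq_single (x, y)]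
    · simp
    · intro e _ he
      simp [he]
    · intro h'
      exact absurd h h'
  · rw [Finset.sum_eq_single (x, y)]
    · simp
    · intro e _ he
      simp [he]
    · intro h'
      exact absurd h h'

/-- Covering lemma: the pairs of `A` at distance at most `R`. -/
theorem exists_cover (κ : ℕ) {R : ℝ} (hR : 0 ≤ R) :
    ∀ A : Finset X, A.card < 2 ^ κ → ∃ E : Finset (X × X), E.card ≤ 2 * A.card ∧
      ∀ x ∈ A, ∀ y ∈ A, dist x y ≤ R → Span E x y (2 * √(κ * R)) := by
  classical
  intro A
  induction A using Finset.strongInduction with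
  | H A ih =>
    intro hA
    rcases A.eq_empty_or_nonempty with h0 | ⟨v, hv⟩
    · subst h0
      exact ⟨∅, by simp, by simp⟩
    set B : ℕ → Finset X := fun j => A.filter (fun z => dist v z ≤ j * R) with hB
    have hmemB : ∀ j z, z ∈ B j ↔ z ∈ A ∧ dist v z ≤ j * R := by
      intro j z
      simp [hB]
    have hex : ∃ j, j < κ ∧ (B (j + 1)).card ≤ 2 * (B j).card := by
      by_contra hcon
      push Not at hcon
      have key : ∀ j, j ≤ κ → 2 ^ j ≤ (B j).card := by
        intro j
        induction j with
        | zero =>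
          intro _
          have : v ∈ B 0 := by
            rw [hmemB]
            exact ⟨hv, by simp⟩
          simpa using Finset.card_pos.mpr ⟨v, this⟩
        | succ j ihj =>
          intro hj
          have h1 := ihj (by omega)
          have h2 := hcon j (by omega)
          rw [pow_succ]
          omega
      have h1 := key κ le_rfl
      have h2 : (B κ).card ≤ A.card := Finset.card_le_card (Finset.filter_subset _ _)
      omega
    obtain ⟨j, hjκ, hj⟩ := hex
    have hvB : v ∈ B j := by
      rw [hmemB]
      exact ⟨hv, by simpa using by positivity⟩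
    have hss : A \ B j ⊂ A := by
      refine Finset.sdiff_ssubset ?_ ⟨v, hvB⟩
      exact Finset.filter_subset _ _
    have hcard : (A \ B j).card + (B j).card = A.card :=
      Finset.card_sdiff_add_card_eq_card (Finset.filter_subset _ _)
    obtain ⟨E', hE'card, hE'⟩ := ih (A \ B j) hss (by omega)
    have hκR : ∀ i : ℕ, i ≤ κ → (i : ℝ) * R ≤ κ * R := by
      intro i hi
      exact mul_le_mul_of_nonneg_right (by exact_mod_cast hi) hR
    set E : Finset (X × X) := E' ∪ (B (j + 1)).image (fun z => (v, z)) with hE
    have hvz : ∀ z ∈ B (j + 1), Span E v z (√(κ * R)) := by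
      intro z hz
      have h1 : (v, z) ∈ E := by
        rw [hE]
        exact Finset.mem_union_right _ (Finset.mem_image_of_mem _ hz)
      refine (Span.of_mem h1).mono (Real.sqrt_le_sqrt ?_)
      exact ((hmemB _ _).1 hz).2.trans (hκR (j + 1) (by omega))
    have hBB : ∀ z, z ∈ B j → z ∈ B (j + 1) := by
      intro z hz
      rw [hmemB] at hz ⊢
      refine ⟨hz.1, hz.2.trans ?_⟩
      exact mul_le_mul_of_nonneg_right (by push_cast; linarith) hR
    have hpair : ∀ x y, x ∈ B j → y ∈ A → dist x y ≤ R → Span E x y (2 * √(κ * R)) := by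
      intro x y hx hy hxy
      have hy' : y ∈ B (j + 1) := by
        rw [hmemB] at hx ⊢
        refine ⟨hy, ?_⟩
        have := dist_triangle v x y
        push_cast
        linarith [hx.2]
      have := (hvz x (hBB x hx)).symm.trans (hvz y hy')
      exact this.mono (by linarith)
    refine ⟨E, ?_, ?_⟩
    · have h1 : E.card ≤ E'.card + ((B (j + 1)).image (fun z => (v, z))).card :=
        Finset.card_union_le _ _
      have h2 : ((B (j + 1)).image (fun z => (v, z))).card ≤ (B (j + 1)).card :=
        Finset.card_image_le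
      omega
    · intro x hx y hy hxy
      by_cases hxB : x ∈ B j
      · exact hpair x y hxB hy hxy
      · by_cases hyB : y ∈ B j
        · exact (hpair y x hyB hx (by rw [dist_comm]; exact hxy)).symm
        · refine (hE' x ?_ y ?_ hxy).mono_set ?_
          · exact Finset.mem_sdiff.mpr ⟨hx, hxB⟩
          · exact Finset.mem_sdiff.mpr ⟨hy, hyB⟩
          · rw [hE]
            exact Finset.subset_union_left

/-- A maximal separated subset. -/
theorem exists_net {ρ : ℝ} (hρ : 0 < ρ) (V : Finset X) :
    ∃ N ⊆ V, (∀ x ∈ N, ∀ y ∈ N, x ≠ y → ρ ≤ dist x y) ∧ ∀ x ∈ V, ∃ p ∈ N, dist x p < ρ := by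
  classical
  induction V using Finset.induction with
  | empty => exact ⟨∅, by simp, by simp, by simp⟩
  | insert a V ha ih =>
    obtain ⟨N, hNV, hsep, hcov⟩ := ih
    by_cases h : ∃ p ∈ N, dist a p < ρ
    · refine ⟨N, hNV.trans (Finset.subset_insert _ _), hsep, ?_⟩
      intro x hx
      rcases Finset.mem_insert.1 hx with rfl | hx
      · exact h
      · exact hcov x hx
    · push Not at h
      refine ⟨insert a N, Finset.insert_subset_insert _ hNV, ?_, ?_⟩
      · intro x hx y hy hxy
        rcases Finset.mem_insert.1 hx with rfl | hx'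
        · rcases Finset.mem_insert.1 hy with rfl | hy'
          · exact absurd rfl hxy
          · exact h y hy'
        · rcases Finset.mem_insert.1 hy with rfl | hy'
          · rw [dist_comm]
            exact h x hx'
          · exact hsep x hx' y hy' hxy
      · intro x hx
        rcases Finset.mem_insert.1 hx with rfl | hx'
        · exact ⟨x, Finset.mem_insert_self _ _, by simpa using hρ⟩
        · obtain ⟨p, hp, hp'⟩ := hcov x hx'
          exact ⟨p, Finset.mem_insert_of_mem hp, hp'⟩

theorem spanner_aux (κ : ℕ) (hκ1 : 1 ≤ κ) :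
    ∀ V : Finset X, V.card < 2 ^ κ → ∃ E : Finset (X × X), E.card ≤ 5 * V.card ∧
      ∀ r : ℝ, 0 < r → (∀ x ∈ V, ∀ y ∈ V, x ≠ y → r ≤ dist x y) →
        ∀ x ∈ V, ∀ y ∈ V, x ≠ y →
          Span E x y (640 * √κ * √(dist x y) - 600 * √κ * √r) := by
  classical
  intro V
  induction V using Finset.strongInduction with
  | H V ih =>
    intro hV
    by_cases hoff : V.offDiag.Nonempty
    swap
    · refine ⟨∅, by simp, ?_⟩
      intro r _ _ x hx y hy hxy
      exact absurd ⟨(x, y), Finset.mem_offDiag.2 ⟨hx, hy, hxy⟩⟩ hoff
    obtain ⟨⟨x₀, y₀⟩, hxy₀, hmin⟩ := Finset.exists_min_image V.offDiag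
      (fun e => dist e.1 e.2) hoff
    rw [Finset.mem_offDiag] at hxy₀
    obtain ⟨hx₀, hy₀, hne₀⟩ := hxy₀
    simp only at hx₀ hy₀ hne₀
    set r' : ℝ := dist x₀ y₀ with hr'
    have hr'pos : 0 < r' := dist_pos.2 hne₀
    have hr'min : ∀ x ∈ V, ∀ y ∈ V, x ≠ y → r' ≤ dist x y := by
      intro x hx y hy hxy
      exact hmin (x, y) (Finset.mem_offDiag.2 ⟨hx, hy, hxy⟩)
    obtain ⟨N, hNV, hsep, hcov⟩ := exists_net (ρ := 900 * r') (by positivity) V
    have hNss : N ⊂ V := by
      refine Finset.ssubset_iff_subset_ne.2 ⟨hNV, ?_⟩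
      intro h
      have := hsep x₀ (h ▸ hx₀) y₀ (h ▸ hy₀) hne₀
      linarith
    have hNcard : N.card < 2 ^ κ := (Finset.card_lt_card hNss).trans hV
    obtain ⟨EN, hENcard, hEN⟩ := ih N hNss hNcard
    choose! p hpN hpd using hcov
    have hpid : ∀ x ∈ N, p x = x := by
      intro x hx
      by_contra hne
      have h1 := hsep x hx (p x) (hpN x (hNV hx)) (Ne.symm hne)
      have h2 := hpd x (hNV hx)
      linarith
    set A : Finset X := V.filter (fun x => ∃ y ∈ V, y ≠ x ∧ dist x y ≤ 400 * r') with hA
    have hmemA : ∀ x, x ∈ A ↔ x ∈ V ∧ ∃ y ∈ V, y ≠ x ∧ dist x y ≤ 400 * r' := by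
      intro x
      simp [hA]
    have hAV : A ⊆ V := Finset.filter_subset _ _
    -- counting
    have hAN : (A ∩ N).card ≤ (A \ N).card := by
      have hch : ∀ x ∈ A ∩ N, ∃ y ∈ A \ N, y ≠ x ∧ dist x y ≤ 400 * r' := by
        intro x hx
        rw [Finset.mem_inter, hmemA] at hx
        obtain ⟨⟨hxV, y, hyV, hyx, hd⟩, hxN⟩ := hx
        refine ⟨y, ?_, hyx, hd⟩
        rw [Finset.mem_sdiff, hmemA]
        refine ⟨⟨hyV, x, hxV, Ne.symm hyx, by rw [dist_comm]; exact hd⟩, ?_⟩
        intro hyN
        have := hsep x hxN y hyN (Ne.symm hyx)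
        linarith
      choose! φ hφ hφ' hφ'' using hch
      refine Finset.card_le_card_of_injOn φ (fun x hx => hφ x hx) ?_
      intro x hx x' hx' hxx
      by_contra hne
      have h1 := hφ'' x hx
      have h2 := hφ'' x' hx'
      have hxx0 : φ x = φ x' := hxx
      rw [← hxx0] at h2
      have hxN := (Finset.mem_inter.1 hx).2
      have hxN' := (Finset.mem_inter.1 hx').2
      have h3 := hsep x hxN x' hxN' hne
      have h4 := dist_triangle_right x x' (φ x)
      linarith
    have hAcard : A.card ≤ 2 * (V \ N).card := by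
      have h1 : (A ∩ N).card + (A \ N).card = A.card := Finset.card_inter_add_card_sdiff A N
      have h2 : (A \ N).card ≤ (V \ N).card :=
        Finset.card_le_card (Finset.sdiff_subset_sdiff hAV le_rfl)
      omega
    have hVN : (V \ N).card + N.card = V.card := Finset.card_sdiff_add_card_eq_card hNV
    have hAlt : A.card < 2 ^ κ := (Finset.card_le_card hAV).trans_lt hV
    obtain ⟨EC, hECcard, hEC⟩ := exists_cover κ (R := 400 * r') (by positivity) A hAlt
    set E : Finset (X × X) := EN ∪ ((V \ N).image (fun x => (x, p x)) ∪ EC) with hE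
    refine ⟨E, ?_, ?_⟩
    · have h1 : E.card ≤ EN.card + ((V \ N).image (fun x => (x, p x)) ∪ EC).card :=
        Finset.card_union_le _ _
      have h2 : ((V \ N).image (fun x => (x, p x)) ∪ EC).card
          ≤ ((V \ N).image (fun x => (x, p x))).card + EC.card := Finset.card_union_le _ _
      have h3 : ((V \ N).image (fun x => (x, p x))).card ≤ (V \ N).card := Finset.card_image_le
      omega
    · intro r hr hrmin x hx y hy hxy
      have hrr' : r ≤ r' := hrmin x₀ hx₀ y₀ hy₀ hne₀
      set s : ℝ := √r' with hs
      have hspos : 0 < s := Real.sqrt_pos.2 hr'pos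
      have hs2 : s ^ 2 = r' := Real.sq_sqrt hr'pos.le
      have hsr : √r ≤ s := Real.sqrt_le_sqrt hrr'
      set k : ℝ := √κ with hk
      have hk1 : 1 ≤ k := by
        rw [hk]
        exact Real.one_le_sqrt.2 (by exact_mod_cast hκ1)
      set d : ℝ := dist x y with hd
      have hdpos : 0 < d := dist_pos.2 hxy
      set D : ℝ := √d with hD
      have hDpos : 0 < D := Real.sqrt_pos.2 hdpos
      have hD2 : D ^ 2 = d := Real.sq_sqrt hdpos.le
      have hsD : s ≤ D := Real.sqrt_le_sqrt (hr'min x hx y hy hxy)
      have hkr : 600 * k * √r ≤ 600 * k * s := mul_le_mul_of_nonneg_left hsr (by positivity)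
      -- the cost of moving to the net
      have hmove : ∀ z ∈ V, Span E z (p z) (30 * s) := by
        intro z hz
        by_cases hzN : z ∈ N
        · rw [hpid z hzN]
          exact (Span.refl E z).mono (by positivity)
        · have h1 : (z, p z) ∈ E := by
            rw [hE]
            refine Finset.mem_union_right _ (Finset.mem_union_left _ ?_)
            exact Finset.mem_image.2 ⟨z, Finset.mem_sdiff.2 ⟨hz, hzN⟩, rfl⟩
          refine (Span.of_mem h1).mono ?_
          rw [show (30 : ℝ) * s = √((30 * s) ^ 2) from (Real.sqrt_sq (by positivity)).symm]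
          refine Real.sqrt_le_sqrt ?_
          have := hpd z hz
          nlinarith
      by_cases hcase : d ≤ 400 * r'
      · -- short pairs
        have hxA : x ∈ A := (hmemA x).2 ⟨hx, y, hy, Ne.symm hxy, hcase⟩
        have hyA : y ∈ A := (hmemA y).2 ⟨hy, x, hx, hxy, by rw [dist_comm]; exact hcase⟩
        have h1 := hEC x hxA y hyA hcase
        have h2 : √((κ : ℝ) * (400 * r')) = 20 * k * s := by
          rw [show (κ : ℝ) * (400 * r') = (20 * k * s) ^ 2 by
            rw [mul_pow, mul_pow, hs2, hk, Real.sq_sqrt (by positivity)]; ring]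
          exact Real.sqrt_sq (by positivity)
        rw [h2] at h1
        refine (h1.mono_set ?_).mono ?_
        · rw [hE]
          exact Finset.subset_union_right.trans Finset.subset_union_right
        · have h3 : 640 * k * s ≤ 640 * k * D := mul_le_mul_of_nonneg_left hsD (by positivity)
          nlinarith
      · push Not at hcase
        have h20 : 20 * s ≤ D := by
          rw [hD, show (20 : ℝ) * s = √((20 * s) ^ 2) from (Real.sqrt_sq (by positivity)).symm]
          refine Real.sqrt_le_sqrt ?_
          nlinarith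
        have hks : s ≤ k * s := by nlinarith
        by_cases hpp : p x = p y
        · have h1 : Span E x y (30 * s + 30 * s) := by
            have h2 := hmove x hx
            have h3 := (hmove y hy).symm
            rw [hpp] at h2
            exact h2.trans h3
          refine h1.mono ?_
          have h3 : 640 * k * (20 * s) ≤ 640 * k * D :=
            mul_le_mul_of_nonneg_left h20 (by positivity)
          nlinarith
        · have hpx := hpN x hx
          have hpy := hpN y hy
          have h1 := hEN (900 * r') (by positivity) hsep (p x) hpx (p y) hpy hpp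
          have h30 : √(900 * r') = 30 * s := by
            rw [show (900 : ℝ) * r' = (30 * s) ^ 2 by rw [mul_pow, hs2]; ring]
            exact Real.sqrt_sq (by positivity)
          rw [h30] at h1
          have hdp : √(dist (p x) (p y)) ≤ D + 27 * s := by
            rw [show D + 27 * s = √((D + 27 * s) ^ 2) from (Real.sqrt_sq (by positivity)).symm]
            refine Real.sqrt_le_sqrt ?_
            have h4 := hpd x hx
            have h5 := hpd y hy
            have h6 : dist (p x) (p y) ≤ dist x (p x) + d + dist y (p y) := by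
              have h7 := dist_triangle4 (p x) x y (p y)
              rw [dist_comm (p x) x] at h7
              exact h7
            nlinarith [mul_le_mul_of_nonneg_left h20 hspos.le]
          have h2 : Span E x y (30 * s + (640 * k * √(dist (p x) (p y)) - 600 * k * (30 * s))
              + 30 * s) :=
            ((hmove x hx).trans (h1.mono_set (by rw [hE]; exact Finset.subset_union_left))).trans
              (hmove y hy).symm
          refine h2.mono ?_
          have h3 : 640 * k * √(dist (p x) (p y)) ≤ 640 * k * (D + 27 * s) :=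
            mul_le_mul_of_nonneg_left hdp (by positivity)
          nlinarith

/-- Sparse spanner for the square root cost. -/
theorem exists_spanner (V : Finset X) (κ : ℕ) (hκ1 : 1 ≤ κ) (hκ : V.card < 2 ^ κ) :
    ∃ E : Finset (X × X), E.card ≤ 5 * V.card ∧
      ∀ x ∈ V, ∀ y ∈ V, Span E x y (640 * √κ * √(dist x y)) := by
  classical
  obtain ⟨E, hE, h⟩ := spanner_aux κ hκ1 V hκ
  refine ⟨E, hE, ?_⟩
  intro x hx y hy
  by_cases hxy : x = y
  · subst hxy
    exact (Span.refl E x).mono (by positivity)
  · -- the minimal distance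
    obtain ⟨⟨x₀, y₀⟩, hxy₀, hmin⟩ := Finset.exists_min_image V.offDiag
      (fun e => dist e.1 e.2) ⟨(x, y), Finset.mem_offDiag.2 ⟨hx, hy, hxy⟩⟩
    rw [Finset.mem_offDiag] at hxy₀
    have h1 := h (dist x₀ y₀) (dist_pos.2 hxy₀.2.2)
      (fun a ha b hb hab => hmin (a, b) (Finset.mem_offDiag.2 ⟨ha, hb, hab⟩)) x hx y hy hxy
    refine h1.mono ?_
    have : 0 ≤ 600 * √(κ : ℝ) * √(dist x₀ y₀) := by positivity
    linarith

end Pool.Agent.Lib.MP_716709_gt.Near
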