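import Pool.Agent.Lib.MP_716709_gt.Near.Coloring

set_option autoImplicit false

namespace Pool.Agent.Lib.MP_716709_gt.Near

open Finset

section
variable {α ι : Type*} [Fintype α] [DecidableEq α] [Fintype ι]

/-- the support of a weight function -/
noncomputable def supp (w : α → ℝ) : Finset α := univ.filter fun i => w i ≠ 0

omit [DecidableEq α] in
theorem mem_supp {w : α → ℝ} {i : α} : i ∈ supp w ↔ w i ≠ 0 := by simp [supp]

/-- one step of the sparsification -/
theorem step (u : α → ι → ℝ) (w : α → ℝ) (hw : ∀ i, 0 ≤ w i)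
    (h2 : ∀ e, ∑ i, w i * u i e ^ 2 ≤ 2) (hN : 0 < Fintype.card ι) (hm : 0 < (supp w).card) :
    ∃ w' : α → ℝ, (∀ i, 0 ≤ w' i) ∧ 64 * (supp w').card ≤ 63 * (supp w).card ∧
      ∀ e f, |∑ i, (w' i - w i) * u i e * u i f| ≤ 60 * Fintype.card ι / (supp w).card := by
  classical
  set m : ℕ := (supp w).card with hmdef
  set N : ℕ := Fintype.card ι with hNdef
  have hmR : (0 : ℝ) < m := by exact_mod_cast hm
  have hNR : (0 : ℝ) < N := by exact_mod_cast hN
  set nu : α → ℝ := fun i => ∑ e, u i e ^ 2 with hnu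
  have hnu0 : ∀ i, 0 ≤ nu i := fun i => sum_nonneg fun e _ => sq_nonneg _
  have hsum : ∑ i, w i * nu i ≤ 2 * N := by
    calc ∑ i, w i * nu i = ∑ i, ∑ e, w i * u i e ^ 2 := by simp only [hnu, mul_sum]
      _ = ∑ e, ∑ i, w i * u i e ^ 2 := sum_comm
      _ ≤ ∑ _e : ι, (2 : ℝ) := sum_le_sum fun e _ => h2 e
      _ = 2 * N := by rw [sum_const, card_univ, nsmul_eq_mul, hNdef]; ring
  set J : Finset α := (supp w).filter fun i => w i * nu i ≤ 4 * N / m with hJ
  have hJsub : J ⊆ supp w := filter_subset _ _
  have hws : ∀ i, 0 ≤ w i * nu i := fun i => mul_nonneg (hw i) (hnu0 i)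
  -- the light set is large
  have hcompl : ((supp w \ J).card : ℝ) * (4 * N / m) ≤ 2 * N := by
    calc ((supp w \ J).card : ℝ) * (4 * N / m) = ∑ _i ∈ supp w \ J, (4 * N / m : ℝ) := by
          rw [sum_const, nsmul_eq_mul]
      _ ≤ ∑ i ∈ supp w \ J, w i * nu i := by
          refine sum_le_sum fun i hi => ?_
          rw [mem_sdiff, hJ, mem_filter] at hi
          have := fun h => hi.2 ⟨hi.1, h⟩
          exact (not_le.1 this).le
      _ ≤ ∑ i, w i * nu i := sum_le_sum_of_subset_of_nonneg (subset_univ _) fun i _ _ => hws i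
      _ ≤ 2 * N := hsum
  have hcard : (supp w \ J).card + J.card = m := card_sdiff_add_card_eq_card hJsub
  have hJcard : (m : ℝ) ≤ 2 * J.card := by
    have h1 : ((supp w \ J).card : ℝ) * 2 ≤ m := by
      have h3 : ((supp w \ J).card : ℝ) * (4 * N / m) * m ≤ 2 * N * m :=
        mul_le_mul_of_nonneg_right hcompl hmR.le
      have h4 : ((supp w \ J).card : ℝ) * (4 * N / m) * m = (supp w \ J).card * 2 * (2 * N) := by
        field_simp; ring
      rw [h4] at h3
      have h5 : ((supp w \ J).card : ℝ) * 2 * (2 * N) ≤ m * (2 * N) := by linarith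
      exact le_of_mul_le_mul_right h5 (by positivity)
    have h2 : ((supp w \ J).card : ℝ) + J.card = m := by exact_mod_cast hcard
    linarith
  have hJne : J.Nonempty := by
    rw [← card_pos]
    have : (0 : ℝ) < J.card := by linarith
    exact_mod_cast this
  -- partial colouring
  have hrow : ∑ j : ι × ι, ∑ i ∈ J, (w i * u i j.1 * u i j.2) ^ 2 ≤ 8 * N ^ 2 / m := by
    calc ∑ j : ι × ι, ∑ i ∈ J, (w i * u i j.1 * u i j.2) ^ 2
        = ∑ i ∈ J, ∑ j : ι × ι, (w i * u i j.1 * u i j.2) ^ 2 := sum_comm
      _ = ∑ i ∈ J, (w i * nu i) ^ 2 := by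
          refine sum_congr rfl fun i _ => ?_
          rw [Fintype.sum_prod_type]
          simp only [hnu]
          rw [mul_pow, sq (∑ e, u i e ^ 2), sum_mul_sum, mul_sum]
          refine sum_congr rfl fun e _ => ?_
          rw [mul_sum]
          refine sum_congr rfl fun f _ => ?_
          ring
      _ ≤ ∑ i ∈ J, (4 * N / m) * (w i * nu i) := by
          refine sum_le_sum fun i hi => ?_
          rw [hJ, mem_filter] at hi
          rw [sq]
          exact mul_le_mul_of_nonneg_right hi.2 (hws i)
      _ = (4 * N / m) * ∑ i ∈ J, w i * nu i := by rw [mul_sum]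
      _ ≤ (4 * N / m) * (2 * N) := by
          refine mul_le_mul_of_nonneg_left ?_ (by positivity)
          exact (sum_le_sum_of_subset_of_nonneg (subset_univ _) fun i _ _ => hws i).trans hsum
      _ = 8 * N ^ 2 / m := by ring
  obtain ⟨χ, hχ, hχc, hχb⟩ := partial_coloring J hJne
    (fun (j : ι × ι) i => w i * u i j.1 * u i j.2) (60 * N / m) (by positivity) (by
      calc 224 * ∑ j : ι × ι, ∑ i ∈ J, (w i * u i j.1 * u i j.2) ^ 2
          ≤ 224 * (8 * N ^ 2 / m) := by linarith
        _ ≤ m / 2 * (60 * N / m) ^ 2 := by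
            have : (m : ℝ) / 2 * (60 * N / m) ^ 2 = 1800 * (N ^ 2 / m) := by
              field_simp; ring
            rw [this]
            have h0 : (0 : ℝ) ≤ N ^ 2 / m := by positivity
            have : (224 : ℝ) * (8 * N ^ 2 / m) = 1792 * (N ^ 2 / m) := by ring
            rw [this]; linarith
        _ ≤ J.card * (60 * N / m) ^ 2 := by
            refine mul_le_mul_of_nonneg_right ?_ (by positivity)
            linarith)
  -- choose the sign
  have key : ∃ χ' : α → ℝ, (∀ i, χ' i = -1 ∨ χ' i = 0 ∨ χ' i = 1) ∧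
      m ≤ 64 * (J.filter fun i => χ' i = -1).card ∧
      ∀ j : ι × ι, |∑ i ∈ J, w i * u i j.1 * u i j.2 * χ' i| ≤ 60 * N / m := by
    have hsplit : (J.filter fun i => χ i ≠ 0).card =
        (J.filter fun i => χ i = -1).card + (J.filter fun i => χ i = 1).card := by
      rw [← card_union_of_disjoint]
      · congr 1
        ext i
        simp only [mem_filter, mem_union]
        rcases hχ i with h | h | h <;> rw [h] <;> norm_num
      · rw [disjoint_left]
        intro i hi hi'
        rw [mem_filter] at hi hi'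
        rw [hi.2] at hi'
        norm_num at hi'
    have h32 : m < 32 * ((J.filter fun i => χ i = -1).card + (J.filter fun i => χ i = 1).card) := by
      have h1 : (m : ℝ) < 32 * ((J.filter fun i => χ i = -1).card +
          (J.filter fun i => χ i = 1).card) := by
        have : ((J.filter fun i => χ i ≠ 0).card : ℝ) =
          (J.filter fun i => χ i = -1).card + (J.filter fun i => χ i = 1).card := by
            exact_mod_cast hsplit
        rw [this] at hχc
        linarith
      exact_mod_cast h1
    rcases le_total (J.filter fun i => χ i = 1).card (J.filter fun i => χ i = -1).card with h | h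
    · exact ⟨χ, hχ, by omega, hχb⟩
    · refine ⟨fun i => - χ i, fun i => ?_, ?_, fun j => ?_⟩
      · rcases hχ i with h | h | h <;> simp [h]
      · have : (J.filter fun i => - χ i = -1) = J.filter fun i => χ i = 1 := by
          refine filter_congr fun i _ => ?_
          constructor <;> intro h <;> linarith
        rw [this]; omega
      · have : ∑ i ∈ J, w i * u i j.1 * u i j.2 * - χ i =
            - ∑ i ∈ J, w i * u i j.1 * u i j.2 * χ i := by
          rw [← sum_neg_distrib]
          exact sum_congr rfl fun i _ => by ring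
        rw [this, abs_neg]
        exact hχb j
  obtain ⟨χ', hχ', hcnt, hb⟩ := key
  refine ⟨fun i => if i ∈ J then w i * (1 + χ' i) else w i, fun i => ?_, ?_, fun e f => ?_⟩
  · dsimp only
    split_ifs
    · refine mul_nonneg (hw i) ?_
      rcases hχ' i with h | h | h <;> rw [h] <;> norm_num
    · exact hw i
  · have hsub : supp (fun i => if i ∈ J then w i * (1 + χ' i) else w i) ⊆
        supp w \ (J.filter fun i => χ' i = -1) := by
      intro i hi
      rw [mem_supp] at hi
      rw [mem_sdiff, mem_supp, mem_filter]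
      constructor
      · intro h0
        apply hi
        split_ifs <;> simp [h0]
      · rintro ⟨hiJ, h1⟩
        apply hi
        rw [if_pos hiJ, h1]; ring
    have h1 := card_le_card hsub
    have h2 : (supp w \ (J.filter fun i => χ' i = -1)).card +
        (J.filter fun i => χ' i = -1).card = m :=
      card_sdiff_add_card_eq_card ((filter_subset _ _).trans hJsub)
    omega
  · have : ∑ i, ((if i ∈ J then w i * (1 + χ' i) else w i) - w i) * u i e * u i f =
        ∑ i ∈ J, w i * u i e * u i f * χ' i := by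
      rw [← sum_subset (subset_univ J)]
      · refine sum_congr rfl fun i hi => ?_
        rw [if_pos hi]; ring
      · intro i _ hi
        rw [if_neg hi]; ring
    rw [this]
    exact hb (e, f)

/-- the total error of the remaining steps -/
noncomputable def Er (N k m : ℕ) : ℝ := 3780 * N * (1 / k - 1 / m) + 60 * N / k

theorem Er_step {N k m m' : ℕ} (hm' : 0 < m') (h : 64 * m' ≤ 63 * m) :
    60 * N / (m : ℝ) + Er N k m' ≤ Er N k m := by
  have hmR' : (0 : ℝ) < m' := by exact_mod_cast hm'
  have hm : 0 < m := by omega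
  have hmR : (0 : ℝ) < m := by exact_mod_cast hm
  have hR : (64 : ℝ) * m' ≤ 63 * m := by exact_mod_cast h
  have h1 : 64 / (63 * (m : ℝ)) ≤ 1 / m' := by
    rw [div_le_div_iff₀ (by positivity) hmR']
    linarith
  have h2 : 64 / (63 * (m : ℝ)) = 1 / m + 1 / (63 * m) := by
    field_simp; norm_num
  have h3 : (0 : ℝ) ≤ N := Nat.cast_nonneg _
  have h4 : 3780 * (N : ℝ) * (1 / m + 1 / (63 * m)) ≤ 3780 * N * (1 / m') := by
    refine mul_le_mul_of_nonneg_left ?_ (by positivity)
    rw [← h2]; exact h1
  have h5 : 3780 * (N : ℝ) * (1 / m + 1 / (63 * m)) = 3780 * N * (1 / m) + 60 * N / m := by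
    field_simp; ring
  unfold Er
  rw [h5] at h4
  have e1 : 3780 * (N : ℝ) * (1 / k - 1 / m') = 3780 * N * (1 / k) - 3780 * N * (1 / m') := by ring
  have e2 : 3780 * (N : ℝ) * (1 / k - 1 / m) = 3780 * N * (1 / k) - 3780 * N * (1 / m) := by ring
  rw [e1, e2]
  linarith

theorem Er_le {N k m : ℕ} (hk : 0 < k) : Er N k m ≤ 3840 * N / k := by
  have h3 : (0 : ℝ) ≤ N := Nat.cast_nonneg _
  have h0 : (0 : ℝ) ≤ 1 / m := by positivity
  have : 3780 * (N : ℝ) * (1 / k - 1 / m) ≤ 3780 * N * (1 / k) := by
    refine mul_le_mul_of_nonneg_left ?_ (by positivity)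
    linarith
  unfold Er
  have e : 3840 * (N : ℝ) / k = 3780 * N * (1 / k) + 60 * N / k := by ring
  rw [e]; linarith

theorem sparsify_aux (u : α → ι → ℝ) (k : ℕ) (hk : 0 < k) (hN : 0 < Fintype.card ι) :
    ∀ m : ℕ, ∀ w : α → ℝ, (∀ i, 0 ≤ w i) → (supp w).card = m → k < m →
      (∀ e, ∑ i, w i * u i e ^ 2 ≤ 2 - Er (Fintype.card ι) k m) →
      ∃ w' : α → ℝ, (∀ i, 0 ≤ w' i) ∧ (supp w').card ≤ k ∧
        ∀ e f, |∑ i, (w' i - w i) * u i e * u i f| ≤ Er (Fintype.card ι) k m := by
  intro m
  induction m using Nat.strong_induction_on with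
  | _ m ih =>
    intro w hw hwm hkm hdiag
    have hmR : (0 : ℝ) < m := by
      have : 0 < m := by omega
      exact_mod_cast this
    have hkR : (0 : ℝ) < k := by exact_mod_cast hk
    have hNR : (0 : ℝ) ≤ Fintype.card ι := Nat.cast_nonneg _
    have hEr0 : 60 * Fintype.card ι / (m : ℝ) ≤ Er (Fintype.card ι) k m := by
      unfold Er
      have h1 : (1 : ℝ) / m ≤ 1 / k := by
        apply one_div_le_one_div_of_le hkR
        exact_mod_cast hkm.le
      have h2 : 60 * Fintype.card ι / (m : ℝ) ≤ 60 * Fintype.card ι / k := by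
        apply div_le_div_of_nonneg_left (by positivity) hkR
        exact_mod_cast hkm.le
      have h3 : 0 ≤ 3780 * (Fintype.card ι : ℝ) * (1 / k - 1 / m) := by
        apply mul_nonneg (by positivity)
        linarith
      linarith
    have hErnn : 0 ≤ Er (Fintype.card ι) k m := le_trans (by positivity) hEr0
    obtain ⟨w₁, hw₁, hc₁, he₁⟩ := step u w hw (fun e => (hdiag e).trans (by linarith)) hN
      (by omega)
    rw [hwm] at hc₁ he₁
    rcases Nat.lt_or_ge k (supp w₁).card with hlt | hge
    · have hstep := Er_step (N := Fintype.card ι) (k := k) (m := m) (m' := (supp w₁).card)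
        (by omega) hc₁
      have hd : ∀ e, ∑ i, w₁ i * u i e ^ 2 ≤ 2 - Er (Fintype.card ι) k (supp w₁).card := by
        intro e
        have h1 : ∑ i, w₁ i * u i e ^ 2 = ∑ i, w i * u i e ^ 2 +
            ∑ i, (w₁ i - w i) * u i e * u i e := by
          rw [← sum_add_distrib]
          exact sum_congr rfl fun i _ => by ring
        rw [h1]
        have h2 := (abs_le.1 (he₁ e e)).2
        have h3 := hdiag e
        linarith
      obtain ⟨w₂, hw₂, hc₂, he₂⟩ := ih (supp w₁).card (by omega) w₁ hw₁ rfl hlt hd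
      refine ⟨w₂, hw₂, hc₂, fun e f => ?_⟩
      have h1 : ∑ i, (w₂ i - w i) * u i e * u i f = ∑ i, (w₂ i - w₁ i) * u i e * u i f +
          ∑ i, (w₁ i - w i) * u i e * u i f := by
        rw [← sum_add_distrib]
        exact sum_congr rfl fun i _ => by ring
      rw [h1]
      refine (abs_add_le _ _).trans ?_
      have := he₁ e f
      have := he₂ e f
      linarith
    · exact ⟨w₁, hw₁, hge, fun e f => (he₁ e f).trans hEr0⟩

/-- Sparsification with entrywise error `O(N/k)`. -/
theorem sparsify (u : α → ι → ℝ) (w : α → ℝ) (hw : ∀ i, 0 ≤ w i)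
    (h1 : ∀ e, ∑ i, w i * u i e ^ 2 ≤ 1) (k : ℕ) (hk0 : 0 < k) (hk : 3840 * Fintype.card ι ≤ k) :
    ∃ w' : α → ℝ, (∀ i, 0 ≤ w' i) ∧ (supp w').card ≤ k ∧
      ∀ e f, |∑ i, (w' i - w i) * u i e * u i f| ≤ 3840 * Fintype.card ι / k := by
  have hkR : (0 : ℝ) < k := by exact_mod_cast hk0
  rcases Nat.lt_or_ge k (supp w).card with hlt | hge
  · rcases Nat.eq_zero_or_pos (Fintype.card ι) with hN | hN
    · refine ⟨fun _ => 0, fun _ => le_rfl, ?_, fun e => ?_⟩
      · have : supp (fun _ : α => (0 : ℝ)) = ∅ := by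
          ext i; simp [supp]
        rw [this]; simp
      · exact ((Fintype.card_eq_zero_iff.1 hN).false e).elim
    · have hEr := Er_le (N := Fintype.card ι) (k := k) (m := (supp w).card) hk0
      have hone : (3840 : ℝ) * Fintype.card ι / k ≤ 1 := by
        rw [div_le_one hkR]
        exact_mod_cast hk
      obtain ⟨w', h', hc, he⟩ := sparsify_aux u k hk0 hN (supp w).card w hw rfl hlt
        (fun e => (h1 e).trans (by linarith))
      exact ⟨w', h', hc, fun e f => (he e f).trans hEr⟩
  · exact ⟨w, hw, hge, fun e f => by simp; positivity⟩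

end

end Pool.Agent.Lib.MP_716709_gt.Near
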