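import Pool.Agent.Lib.MP_716709_gt.Points
import Pool.Agent.Lib.MP_716709_gt.Upper.Hamming
import Pool.Agent.Lib.MP_716709_gt.Near.Sparsify
import Pool.Agent.Lib.MP_716709_gt.Near.Spanner

set_option autoImplicit false

namespace Pool.Agent.Lib.MP_716709_gt.Near

open Finset Pool.Agent.Lib.MP_716709_gt

open scoped symmDiff

/-- Hamming representation of a finite subset of `ℓ₁` with distortion close to one. -/
theorem exists_hamming_near (M : Finset L1) {δ : ℝ} (hδ : 0 < δ) :
    ∃ (m : ℕ) (H : M → Finset (Fin m)) (h : ℝ), 0 < h ∧ ∀ x y : M,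
      (1 - δ) * dist x y ≤ h * (H x ∆ H y).card ∧
      h * (H x ∆ H y).card ≤ (1 + δ) * dist x y := by
  classical
  -- truncation of the coordinates
  have hN : ∀ᶠ N : ℕ in Filter.atTop, ∀ q : M × M,
      (1 - δ / 2) * dist q.1 q.2 ≤ ∑ i ∈ range N, |(q.1 : L1) i - (q.2 : L1) i| := by
    rw [Filter.eventually_all]
    intro q
    rcases eq_or_ne q.1 q.2 with h | h
    · refine Filter.Eventually.of_forall fun N => ?_
      rw [h, dist_self, mul_zero]
      exact sum_nonneg fun _ _ => abs_nonneg _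
    · have hpos : 0 < dist q.1 q.2 := dist_pos.2 h
      have ht := (Upper.hasSum_dist (q.1 : L1) q.2).tendsto_sum_nat
      have : (1 - δ / 2) * dist q.1 q.2 < dist (q.1 : L1) q.2 := by
        rw [← Subtype.dist_eq]
        have : 0 < δ / 2 * dist q.1 q.2 := by positivity
        linarith
      exact (ht.eventually (lt_mem_nhds this)).mono fun N hN => hN.le
  obtain ⟨N, hN⟩ := hN.exists
  -- mesh
  have hh : ∀ᶠ h : ℝ in nhdsWithin 0 (Set.Ioi 0), ∀ q : M × M, q.1 ≠ q.2 →
      N * h ≤ δ / 2 * dist q.1 q.2 := by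
    rw [Filter.eventually_all]
    intro q
    rcases eq_or_ne q.1 q.2 with h | h
    · exact Filter.Eventually.of_forall fun _ hq => absurd h hq
    · have hpos : 0 < δ / 2 * dist q.1 q.2 := by
        have := dist_pos.2 h
        positivity
      have ht : Filter.Tendsto (fun h : ℝ => N * h) (nhdsWithin 0 (Set.Ioi 0)) (nhds 0) := by
        have : Filter.Tendsto (fun h : ℝ => N * h) (nhds 0) (nhds (N * 0)) :=
          (continuous_const.mul continuous_id).tendsto 0
        rw [mul_zero] at this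
        exact this.mono_left nhdsWithin_le_nhds
      exact (ht.eventually (gt_mem_nhds hpos)).mono fun h hh _ => hh.le
  have hpos : ∀ᶠ h : ℝ in nhdsWithin 0 (Set.Ioi 0), 0 < h := self_mem_nhdsWithin
  obtain ⟨h, hh, hpos⟩ := (hh.and hpos).exists
  -- bound of the coordinates
  set B : ℝ := ∑ x : M, ‖(x : L1)‖ with hB
  have hB1 : ∀ (x : M) (i : ℕ), |(x : L1) i| ≤ B := by
    intro x i
    have h1 : ‖(x : L1) i‖ ≤ ‖(x : L1)‖ := lp.norm_apply_le_norm (by simp) _ _
    have h2 : ‖(x : L1)‖ ≤ B := single_le_sum (f := fun x : M => ‖(x : L1)‖)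
      (fun _ _ => norm_nonneg _) (mem_univ x)
    rw [Real.norm_eq_abs] at h1
    exact h1.trans h2
  have hB2 : ∀ (x : M) (i : ℕ), 0 ≤ (x : L1) i + B ∧ (x : L1) i + B ≤ 2 * B := by
    intro x i
    have := abs_le.1 (hB1 x i)
    constructor <;> linarith
  set K : ℕ := ⌊2 * B / h⌋₊ with hK
  set a : M → ℕ → ℕ := fun x i => ⌊((x : L1) i + B) / h⌋₊ with ha
  have haK : ∀ x i, a x i ≤ K := fun x i =>
    Nat.floor_le_floor (div_le_div_of_nonneg_right (hB2 x i).2 hpos.le)
  set E := Fin N × Fin K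
  set H : M → Finset E := fun x => univ.filter fun q : E => (q.2 : ℕ) < a x q.1 with hH
  have hcard : ∀ x y : M, ((H x ∆ H y).card : ℝ) = ∑ i ∈ range N, |(a x i : ℝ) - a y i| := by
    intro x y
    have h1 : H x ∆ H y = univ.filter fun q : E =>
        (((q.2 : ℕ) < a x q.1 ∧ ¬ (q.2 : ℕ) < a y q.1) ∨
          ((q.2 : ℕ) < a y q.1 ∧ ¬ (q.2 : ℕ) < a x q.1)) := by
      ext q
      simp only [hH, mem_symmDiff, mem_filter, mem_univ, true_and]
    rw [h1, card_filter]
    push_cast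
    rw [← univ_product_univ, sum_product]
    rw [← Fin.sum_univ_eq_sum_range (fun i => |(a x i : ℝ) - a y i|) N]
    refine sum_congr rfl fun i _ => ?_
    exact Upper.card_xor K (a x i) (a y i) (haK _ _) (haK _ _)
  set e := (Fintype.equivFin E).toEmbedding
  refine ⟨Fintype.card E, fun x => (H x).map e, h, hpos, fun x y => ?_⟩
  have hc2 : (((H x).map e) ∆ ((H y).map e)).card = (H x ∆ H y).card := by
    rw [show ((H x).map e) ∆ ((H y).map e) = (H x ∆ H y).map e from ?_, card_map]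
    ext t
    simp only [mem_symmDiff, mem_map]
    constructor
    · rintro (⟨⟨u, hu, rfl⟩, h2⟩ | ⟨⟨u, hu, rfl⟩, h2⟩)
      · exact ⟨u, Or.inl ⟨hu, fun h => h2 ⟨u, h, rfl⟩⟩, rfl⟩
      · exact ⟨u, Or.inr ⟨hu, fun h => h2 ⟨u, h, rfl⟩⟩, rfl⟩
    · rintro ⟨u, hu | hu, rfl⟩
      · exact Or.inl ⟨⟨u, hu.1, rfl⟩, fun ⟨v, hv, hvu⟩ => hu.2 (e.injective hvu ▸ hv)⟩
      · exact Or.inr ⟨⟨u, hu.1, rfl⟩, fun ⟨v, hv, hvu⟩ => hu.2 (e.injective hvu ▸ hv)⟩
  rw [hc2, hcard]
  rcases eq_or_ne x y with hxy | hxy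
  · subst hxy
    simp
  have hd : 0 < dist x y := dist_pos.2 hxy
  have hNh := hh (x, y) hxy
  have hNx := hN (x, y)
  simp only at hNh hNx
  have hsumle : ∑ i ∈ range N, |(x : L1) i - (y : L1) i| ≤ dist x y := by
    rw [Subtype.dist_eq]
    exact sum_le_hasSum _ (fun _ _ => abs_nonneg _) (Upper.hasSum_dist (x : L1) y)
  have hr : ∀ i, |(x : L1) i - (y : L1) i| - h ≤ h * |(a x i : ℝ) - a y i| ∧
      h * |(a x i : ℝ) - a y i| ≤ |(x : L1) i - (y : L1) i| + h := by
    intro i
    have := Upper.round_bounds hpos (hB2 x i).1 (hB2 y i).1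
    have e1 : (x : L1) i + B - ((y : L1) i + B) = (x : L1) i - (y : L1) i := by ring
    rw [e1] at this
    exact this
  have s1 : ∑ i ∈ range N, (|(x : L1) i - (y : L1) i| - h)
      ≤ ∑ i ∈ range N, h * |(a x i : ℝ) - a y i| := sum_le_sum fun i _ => (hr i).1
  have s2 : ∑ i ∈ range N, h * |(a x i : ℝ) - a y i|
      ≤ ∑ i ∈ range N, (|(x : L1) i - (y : L1) i| + h) := sum_le_sum fun i _ => (hr i).2
  rw [← mul_sum] at s1 s2
  rw [sum_sub_distrib, sum_const, card_range, nsmul_eq_mul] at s1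
  rw [sum_add_distrib, sum_const, card_range, nsmul_eq_mul] at s2
  have hd0 : 0 ≤ δ / 2 * dist x y := by positivity
  constructor <;> linarith

/-- the indicator function of a bit -/
noncomputable def bit {X : Type*} {m : ℕ} (H : X → Finset (Fin m)) (i : Fin m) (x : X) : ℝ :=
  if i ∈ H x then 1 else 0

theorem bit_sub_sq {X : Type*} {m : ℕ} (H : X → Finset (Fin m)) (i : Fin m) (x y : X) :
    (bit H i x - bit H i y) ^ 2 = if i ∈ H x ∆ H y then 1 else 0 := by
  unfold bit
  by_cases h1 : i ∈ H x <;> by_cases h2 : i ∈ H y <;> simp [h1, h2, mem_symmDiff]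

theorem abs_bit_sub {X : Type*} {m : ℕ} (H : X → Finset (Fin m)) (i : Fin m) (x y : X) :
    |bit H i x - bit H i y| = (bit H i x - bit H i y) ^ 2 := by
  unfold bit
  by_cases h1 : i ∈ H x <;> by_cases h2 : i ∈ H y <;> simp [h1, h2]

theorem sum_bit {X : Type*} {m : ℕ} (H : X → Finset (Fin m)) (x y : X) (w : ℝ) :
    ∑ i, w * (bit H i x - bit H i y) ^ 2 = w * (H x ∆ H y).card := by
  rw [← mul_sum]
  congr 1
  simp only [bit_sub_sq]
  rw [sum_ite_mem, univ_inter, sum_const, nsmul_eq_mul, mul_one]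

/-- main estimate for a given metric space of sets -/
theorem main_estimate {X : Type*} [MetricSpace X] [Fintype X] {m : ℕ} (H : X → Finset (Fin m))
    {h δ : ℝ} (hh : 0 < h) (hδ1 : δ ≤ 1)
    (hH : ∀ x y, h * (H x ∆ H y).card ≤ (1 + δ) * dist x y)
    (κ k : ℕ) (hκ1 : 1 ≤ κ) (hκ : Fintype.card X < 2 ^ κ) (hk0 : 0 < k)
    (hk : 3840 * (5 * Fintype.card X) ≤ k) :
    ∃ w : Fin m → ℝ, (∀ i, 0 ≤ w i) ∧ (supp w).card ≤ k ∧ ∀ x y,
      |∑ i, w i * |bit H i x - bit H i y| - h / 2 * (H x ∆ H y).card| ≤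
        3840 * (5 * Fintype.card X) / k * (409600 * κ * dist x y) := by
  classical
  obtain ⟨E, hE, hspan⟩ := exists_spanner (univ : Finset X) κ hκ1 (by rwa [card_univ])
  have hkR : (0 : ℝ) < k := by exact_mod_cast hk0
  set u : Fin m → E → ℝ := fun i e =>
    (bit H i e.1.1 - bit H i e.1.2) / √(dist e.1.1 e.1.2) with hu
  have hcardE : Fintype.card E ≤ 5 * Fintype.card X := by
    rw [Fintype.card_coe, ← card_univ]; exact hE
  have hdiag : ∀ e : E, ∑ i, h / 2 * u i e ^ 2 ≤ 1 := by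
    intro e
    have h1 : ∑ i, h / 2 * u i e ^ 2 =
        (∑ i, h / 2 * (bit H i e.1.1 - bit H i e.1.2) ^ 2) / dist e.1.1 e.1.2 := by
      rw [sum_div]
      refine sum_congr rfl fun i _ => ?_
      simp only [hu]
      rw [div_pow, Real.sq_sqrt dist_nonneg, mul_div_assoc]
    rw [h1, sum_bit]
    refine div_le_one_of_le₀ ?_ dist_nonneg
    have := hH e.1.1 e.1.2
    have hd : 0 ≤ dist e.1.1 e.1.2 := dist_nonneg
    nlinarith
  obtain ⟨w, hw0, hwc, hwe⟩ := sparsify u (fun _ => h / 2) (fun _ => by positivity) hdiag k hk0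
    (by omega)
  refine ⟨w, hw0, hwc, fun x y => ?_⟩
  obtain ⟨c, hc1, hc2⟩ := hspan x (mem_univ _) y (mem_univ _)
  have hdiff : ∀ i, bit H i x - bit H i y =
      ∑ e : E, (c e.1 * √(dist e.1.1 e.1.2)) * u i e := by
    intro i
    rw [hc1 (bit H i), ← sum_coe_sort E]
    refine sum_congr rfl fun e _ => ?_
    simp only [hu]
    rcases eq_or_ne e.1.1 e.1.2 with h0 | h0
    · rw [h0]; simp
    · have : √(dist e.1.1 e.1.2) ≠ 0 := by
        rw [Real.sqrt_ne_zero dist_nonneg]
        exact dist_ne_zero.2 h0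
      field_simp
  have h1 : ∑ i, w i * |bit H i x - bit H i y| - h / 2 * (H x ∆ H y).card =
      ∑ e : E, ∑ f : E, (c e.1 * √(dist e.1.1 e.1.2)) * (c f.1 * √(dist f.1.1 f.1.2)) *
        ∑ i, (w i - h / 2) * u i e * u i f := by
    rw [← sum_bit, ← sum_sub_distrib]
    have h2 : ∀ i, w i * |bit H i x - bit H i y| - h / 2 * (bit H i x - bit H i y) ^ 2 =
        ∑ e : E, ∑ f : E, (c e.1 * √(dist e.1.1 e.1.2)) * (c f.1 * √(dist f.1.1 f.1.2)) *
          ((w i - h / 2) * u i e * u i f) := by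
      intro i
      rw [abs_bit_sub, ← sub_mul, sq, hdiff i, sum_mul_sum, mul_sum]
      refine sum_congr rfl fun e _ => ?_
      rw [mul_sum]
      refine sum_congr rfl fun f _ => ?_
      ring
    rw [sum_congr rfl fun i _ => h2 i, sum_comm]
    refine sum_congr rfl fun e _ => ?_
    rw [sum_comm]
    refine sum_congr rfl fun f _ => ?_
    rw [mul_sum]
  rw [h1]
  have hη0 : (0 : ℝ) ≤ 3840 * Fintype.card E / k := by positivity
  have hcs : ∑ e : E, |c e.1 * √(dist e.1.1 e.1.2)| ≤ 640 * √κ * √(dist x y) := by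
    refine le_trans (le_of_eq ?_) hc2
    rw [← sum_coe_sort E]
    refine sum_congr rfl fun e _ => ?_
    rw [abs_mul, abs_of_nonneg (Real.sqrt_nonneg _)]
  calc |∑ e : E, ∑ f : E, (c e.1 * √(dist e.1.1 e.1.2)) * (c f.1 * √(dist f.1.1 f.1.2)) *
        ∑ i, (w i - h / 2) * u i e * u i f|
      ≤ ∑ e : E, ∑ f : E, |c e.1 * √(dist e.1.1 e.1.2)| * |c f.1 * √(dist f.1.1 f.1.2)| *
        (3840 * Fintype.card E / k) := by
        refine (abs_sum_le_sum_abs _ _).trans (sum_le_sum fun e _ => ?_)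
        refine (abs_sum_le_sum_abs _ _).trans (sum_le_sum fun f _ => ?_)
        rw [abs_mul, abs_mul]
        exact mul_le_mul_of_nonneg_left (hwe e f) (by positivity)
    _ = (3840 * Fintype.card E / k) * (∑ e : E, |c e.1 * √(dist e.1.1 e.1.2)|) ^ 2 := by
        rw [sq, sum_mul_sum, mul_sum]
        refine sum_congr rfl fun e _ => ?_
        rw [mul_sum]
        exact sum_congr rfl fun f _ => by ring
    _ ≤ (3840 * Fintype.card E / k) * (640 * √κ * √(dist x y)) ^ 2 := by
        refine mul_le_mul_of_nonneg_left ?_ hη0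
        exact pow_le_pow_left₀ (sum_nonneg fun _ _ => abs_nonneg _) hcs 2
    _ = (3840 * Fintype.card E / k) * (409600 * κ * dist x y) := by
        rw [mul_pow, mul_pow, Real.sq_sqrt (Nat.cast_nonneg _), Real.sq_sqrt dist_nonneg]
        norm_num
    _ ≤ 3840 * (5 * Fintype.card X) / k * (409600 * κ * dist x y) := by
        refine mul_le_mul_of_nonneg_right ?_ (by positivity)
        apply div_le_div_of_nonneg_right _ hkR.le
        have : (Fintype.card E : ℝ) ≤ 5 * Fintype.card X := by exact_mod_cast hcardE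
        linarith

/-- the embedding for one set `M` -/
theorem embeds_near (M : Finset L1) {n : ℕ} (hM : M.card ≤ n) {ε : ℝ} (hε : 0 < ε) (hε1 : ε ≤ 1)
    (κ k : ℕ) (hκ1 : 1 ≤ κ) (hκ : n < 2 ^ κ)
    (hk : 126 * 10 ^ 9 * κ * n / ε ≤ k) (hk0 : 0 < k) :
    ∃ k' ≤ k, Embeds M (1 + ε) k' := by
  classical
  obtain ⟨m, H, h, hh, hH⟩ := exists_hamming_near M (δ := ε / 8) (by positivity)
  have hkR : (0 : ℝ) < k := by exact_mod_cast hk0
  have hcM : Fintype.card M ≤ n := by rw [Fintype.card_coe]; exact hM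
  have hκR : (1 : ℝ) ≤ κ := by exact_mod_cast hκ1
  have hk1 : 126 * 10 ^ 9 * κ * n ≤ k * ε := by
    rwa [div_le_iff₀ hε] at hk
  have hk2 : 3840 * (5 * Fintype.card M) ≤ k := by
    have h1 : (3840 : ℝ) * (5 * n) ≤ k := by
      have hn0 : (0 : ℝ) ≤ n := Nat.cast_nonneg _
      have h2 : (n : ℝ) ≤ κ * n := by nlinarith
      have h3 : (k : ℝ) * ε ≤ k := by nlinarith
      nlinarith
    have h2 : 3840 * (5 * n) ≤ k := by exact_mod_cast h1
    omega
  obtain ⟨w, hw0, hwc, hwe⟩ := main_estimate H hh (δ := ε / 8) (by linarith)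
    (fun x y => (hH x y).2) κ k hκ1 (by omega) hk0 hk2
  -- the error is at most `ε/16` of the distance
  have herr : ∀ x y : M, 3840 * (5 * (Fintype.card M : ℝ)) / k * (409600 * κ * dist x y) ≤
      ε / 16 * dist x y := by
    intro x y
    have hd : 0 ≤ dist x y := dist_nonneg
    have hcMR : (Fintype.card M : ℝ) ≤ n := by exact_mod_cast hcM
    have h1 : 3840 * (5 * (Fintype.card M : ℝ)) / k * (409600 * κ * dist x y) =
        (3840 * 5 * 409600 * κ * Fintype.card M) / k * dist x y := by ring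
    rw [h1]
    refine mul_le_mul_of_nonneg_right ?_ hd
    rw [div_le_iff₀ hkR]
    have h2 : (κ : ℝ) * Fintype.card M ≤ κ * n := mul_le_mul_of_nonneg_left hcMR (by positivity)
    nlinarith
  refine ⟨(supp w).card, hwc, fun x => WithLp.toLp 1 fun j =>
    w ((supp w).equivFin.symm j) * bit H ((supp w).equivFin.symm j) x,
    (1 - ε / 4) / 2, by linarith, fun x y => ?_⟩
  have hdist : dist (WithLp.toLp 1 fun j => w ((supp w).equivFin.symm j) *
        bit H ((supp w).equivFin.symm j) x : L1fin (supp w).card)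
      (WithLp.toLp 1 fun j => w ((supp w).equivFin.symm j) *
        bit H ((supp w).equivFin.symm j) y : L1fin (supp w).card) =
      ∑ i, w i * |bit H i x - bit H i y| := by
    rw [PiLp.dist_eq_of_L1]
    have h1 : ∀ j : Fin (supp w).card,
        dist ((WithLp.toLp 1 fun j => w ((supp w).equivFin.symm j) *
          bit H ((supp w).equivFin.symm j) x : L1fin (supp w).card) j)
        ((WithLp.toLp 1 fun j => w ((supp w).equivFin.symm j) *
          bit H ((supp w).equivFin.symm j) y : L1fin (supp w).card) j) =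
        (fun i : supp w => w i * |bit H i x - bit H i y|) ((supp w).equivFin.symm j) := by
      intro j
      simp only [Real.dist_eq]
      rw [← mul_sub, abs_mul, abs_of_nonneg (hw0 _)]
    rw [sum_congr rfl fun j _ => h1 j,
      (supp w).equivFin.symm.sum_comp (fun i : supp w => w i * |bit H i x - bit H i y|),
      sum_coe_sort (supp w) (fun i => w i * |bit H i x - bit H i y|)]
    refine sum_subset (subset_univ _) fun i _ hi => ?_
    have : w i = 0 := by
      by_contra h0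
      exact hi (mem_supp.2 h0)
    rw [this, zero_mul]
  rw [hdist]
  have h1 := abs_le.1 ((hwe x y).trans (herr x y))
  have h2 := hH x y
  have hd : 0 ≤ dist x y := dist_nonneg
  have hed : 0 ≤ ε * dist x y := by positivity
  have heed : ε * (ε * dist x y) ≤ ε * dist x y := by
    have := mul_le_mul_of_nonneg_right hε1 hed
    linarith
  constructor
  · nlinarith
  · nlinarith

theorem K_le_near : ∃ C : ℝ, 0 < C ∧ ∀ (n : ℕ) (ε : ℝ), 2 ≤ n → 0 < ε → ε ≤ 1 →
    K n (1 + ε) ≤ ((⌊C * (n * Real.log n / ε)⌋₊ : ℕ) : ℕ∞) := by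
  refine ⟨10 ^ 12, by positivity, fun n ε hn hε hε1 => ?_⟩
  have hnR : (2 : ℝ) ≤ n := by exact_mod_cast hn
  have hn0 : (0 : ℝ) < n := by linarith
  have hlog2 : 0.6931471803 < Real.log 2 := Real.log_two_gt_d9
  have hlogn : Real.log 2 ≤ Real.log n := Real.log_le_log (by norm_num) hnR
  set κ : ℕ := Nat.log 2 n + 1 with hκ
  have hκn : n < 2 ^ κ := Nat.lt_pow_succ_log_self (by norm_num) n
  have hκR : (κ : ℝ) ≤ 3 * Real.log n := by
    have h1 : (Nat.log 2 n : ℝ) * Real.log 2 ≤ Real.log n := by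
      rw [← Real.log_pow]
      refine Real.log_le_log (by positivity) ?_
      exact_mod_cast Nat.pow_log_le_self 2 (by omega)
    rw [hκ]
    push_cast
    nlinarith
  have hne : 1 ≤ n * Real.log n / ε := by
    rw [le_div_iff₀ hε]
    nlinarith
  set k : ℕ := ⌊(10 : ℝ) ^ 12 * (n * Real.log n / ε)⌋₊ with hk
  have hk0 : 0 < k := by
    rw [hk]
    apply Nat.floor_pos.2
    linarith
  have hk1 : 126 * 10 ^ 9 * (κ : ℝ) * n / ε ≤ k := by
    have h1 : (10 : ℝ) ^ 12 * (n * Real.log n / ε) < k + 1 := Nat.lt_floor_add_one _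
    have h2 : 126 * 10 ^ 9 * (κ : ℝ) * n / ε ≤ 126 * 10 ^ 9 * 3 * (n * Real.log n / ε) := by
      have : 126 * 10 ^ 9 * (3 : ℝ) * (n * Real.log n / ε) =
        126 * 10 ^ 9 * (3 * Real.log n) * n / ε := by ring
      rw [this]
      apply div_le_div_of_nonneg_right _ hε.le
      apply mul_le_mul_of_nonneg_right _ hn0.le
      linarith
    linarith
  refine iSup₂_le fun M hM => ?_
  obtain ⟨k', hk', hemb⟩ := embeds_near M hM hε hε1 κ k (by omega) hκn hk1 hk0
  exact (iInf₂_le k' hemb).trans (by exact_mod_cast hk')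

end Pool.Agent.Lib.MP_716709_gt.Near
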